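import Pool.Agent.Lib.MP_551055_al.Trim.EA.Stmts
import Pool.Agent.Lib.MP_551055_al.Trim.LS.Final
import Pool.Agent.Lib.MP_551055_al.Trim.LS.Stmts
import Pool.Agent.Lib.MP_551055_al.Trim.MT.Flow2
import Pool.Agent.Lib.MP_551055_al.Trim.N5.Rel5_54
import Pool.Agent.Lib.MP_551055_al.Trim.N6.U6_54
import Pool.Agent.Lib.MP_551055_al.Trim.T4.GlDim

/-!
Stable freeness of finitely generated projective modules over `ℤ[G]` for the subgroups `G` of even
Artin groups, and for groups with a homomorphism to an even Artin group whose kernel has small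
dimension. The number of generators is arbitrary.

An even Artin group is given by its half labels `l`: the generators `s`, `t` satisfy
`(s t) ^ l s t = (t s) ^ l s t`, so `l s t = 1` means that `s` and `t` commute (label `2`),
`l s t = 2` is the label `4`, and `l s t = 0` means that there is no relation (label `∞`).
-/

set_option autoImplicit false

namespace Pool.Agent.Results.MP_551055_al.EvenArtin

/-- All finitely generated projective `ℤ[G]`-modules are stably free. -/
def AllStablyFree (G : Type) [Group G] : Prop :=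
  ∀ (P : Type) [AddCommGroup P] [Module (MonoidAlgebra ℤ G) P],
    Module.Finite (MonoidAlgebra ℤ G) P → Module.Projective (MonoidAlgebra ℤ G) P →
      ∃ n m : ℕ, Nonempty ((P × (Fin n → MonoidAlgebra ℤ G)) ≃ₗ[MonoidAlgebra ℤ G]
        (Fin m → MonoidAlgebra ℤ G))

/-- The free abelian group of rank `n`, written multiplicatively. -/
abbrev Zn (n : ℕ) : Type := Multiplicative (Fin n → ℤ)

/-- `G` acts without inversions on the tree `T`. -/
structure ActsOnTree (G : Type) [Group G] (V : Type) [MulAction G V] (T : SimpleGraph V) :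
    Prop where
  tree : T.IsTree
  adj : ∀ (g : G) (u v : V), T.Adj u v → T.Adj (g • u) (g • v)
  inv : ∀ (g : G) (u v : V), T.Adj u v → g • u = v → g • v ≠ u

/-- Groups which are built from the trivial group by actions on trees: a group of dimension
`n + 1` acts without inversions on a tree such that the vertex stabilisers have dimension `n + 1`
and the edge stabilisers have dimension `n`. -/
inductive TreeDimension : ℕ → ∀ (G : Type) [Group G], Prop
  | trivial (n : ℕ) (G : Type) [Group G] : Subsingleton G → TreeDimension n G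
  | tree (n : ℕ) (G : Type) [Group G] (V : Type) [MulAction G V] (T : SimpleGraph V) :
      ActsOnTree G V T → (∀ v : V, TreeDimension (n + 1) (MulAction.stabilizer G v)) →
      (∀ u v : V, T.Adj u v → TreeDimension n (MulAction.stabilizer G (u, v))) →
      TreeDimension (n + 1) G

/-- The even Artin group with half labels `l`. -/
abbrev Artin {S : Type} (l : S → S → ℕ) : Type :=
  PresentedGroup {r : FreeGroup S | ∃ s t : S, r = (FreeGroup.of s * FreeGroup.of t) ^ l s t *
    ((FreeGroup.of t * FreeGroup.of s) ^ l s t)⁻¹}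

/-- `X` contains no three generators with labels `4, 4, 2`. -/
def No244 {S : Type} (l : S → S → ℕ) (X : Set S) : Prop :=
  ∀ s ∈ X, ∀ t ∈ X, ∀ v ∈ X, s ≠ t → s ≠ v → t ≠ v → ¬ (l s t = 2 ∧ l s v = 2 ∧ l t v = 1)

/-- The labels between different elements of `X` are finite. -/
def Clique {S : Type} (l : S → S → ℕ) (X : Set S) : Prop := ∀ s ∈ X, ∀ t ∈ X, s ≠ t → l s t ≠ 0

/-- `u` is a good element of `X`: it is in no triple with labels `4, 4, 2` in `X`, or at most two
labels at `u` in `X` are `4` and these neighbours commute with the elements of `X` which commute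
with `u`. -/
def Good {S : Type} (l : S → S → ℕ) (X : Set S) (u : S) : Prop :=
  (∀ s ∈ X, ∀ t ∈ X, s ≠ u → t ≠ u → s ≠ t →
    ¬ (l u s = 2 ∧ l u t = 2 ∧ l s t = 1) ∧ ¬ (l s u = 2 ∧ l s t = 2 ∧ l u t = 1)) ∨
  ((∀ c ∈ X, ∀ x ∈ X, c ≠ u → x ≠ u → l u c = 1 → l u x = 2 → l c x = 1) ∧
    ∃ s t : S, ∀ x ∈ X, x ≠ u → l u x = 2 → x = s ∨ x = t)

/-- `u` is a removable element of `X`: no label at `u` in `X` is `4`, and there are no `t`, `c` in
`X` such that the label of `u`, `t` is finite and at least `6`, the label of `u`, `c` is `2` and the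
label of `t`, `c` is `4`. -/
def Removable {S : Type} (l : S → S → ℕ) (X : Set S) (u : S) : Prop :=
  (∀ t ∈ X, t ≠ u → l u t ≠ 2) ∧
    ∀ t ∈ X, ∀ c ∈ X, t ≠ u → c ≠ u → ¬ (3 ≤ l u t ∧ l u c = 1 ∧ l t c = 2)

/-- `u` is a removable element of `X` with a label `4`: the label of `u` and some `a` in `X` is `4`,
`u` is in no triple with labels `4, 4, 2` in `X`, and no label at `u` in `X` is `6`. -/
def Mixed {S : Type} (l : S → S → ℕ) (X : Set S) (u : S) : Prop :=
  (∃ a ∈ X, a ≠ u ∧ l u a = 2) ∧
  (∀ s ∈ X, ∀ t ∈ X, s ≠ u → t ≠ u → s ≠ t →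
    ¬ (l u s = 2 ∧ l u t = 2 ∧ l s t = 1) ∧ ¬ (l s u = 2 ∧ l s t = 2 ∧ l u t = 1)) ∧
  ∀ s ∈ X, s ≠ u → l u s ≠ 3

/-- Sets of generators of depth at most `k`. -/
inductive Depth {S : Type} (l : S → S → ℕ) : ℕ → Set S → Prop
  | zero (k : ℕ) (X : Set S) : X.Finite → No244 l X → Depth l k X
  | union (k : ℕ) (X Y : Set S) : X.Finite → No244 l X → Depth l k Y →
      (∀ x ∈ X, ∀ y ∈ Y, l x y = 1) → Depth l k (X ∪ Y)
  | step (k : ℕ) (X : Set S) (u : S) : u ∈ X → Good l X u → Depth l (k + 1) (X \ {u}) →
      Depth l k {c | c ∈ X ∧ c ≠ u ∧ l u c = 1} → Depth l (k + 1) X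

/-- Sets of generators which are obtained from sets of depth at most `k` by adding removable
elements. -/
inductive Tame {S : Type} (l : S → S → ℕ) (k : ℕ) : Set S → Prop
  | depth (X : Set S) : Depth l k X → Tame l k X
  | remove (X : Set S) (u : S) : u ∈ X → Removable l X u → Tame l k (X \ {u}) → Tame l k X
  | mixed (X : Set S) (u : S) : u ∈ X → Mixed l X u → Tame l k (X \ {u}) →
      Tame l k {s | s ∈ X ∧ (s = u ∨ l u s = 1 ∨ l u s = 2)} → Tame l k X

/-! ## Comparison with the library -/

open Pool.Agent.Lib.MP_551055_al in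
theorem TreeDimension.lib {n : ℕ} {G : Type} [Group G] (h : TreeDimension n G) : EA.TD n G := by
  induction h with
  | trivial n G hG => exact EA.TD.trivial n G hG
  | tree n G V T hT _ _ ihv ihe =>
    exact EA.TD.tree n G V T ⟨hT.tree, hT.adj, hT.inv⟩ ihv ihe

open Pool.Agent.Lib.MP_551055_al in
theorem Depth.lib {S : Type} {l : S → S → ℕ} (hl : ∀ s t, l s t = l t s) {k : ℕ}
    {X : Set S} (h : Depth l k X) : N5.RD5 l k X := by
  induction h with
  | zero k X hf h => exact N5.RD5.free k X (N6.u5_no244 hl hf h)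
  | union k X Y hf h _ hc ih => exact N5.RD5.union k X Y (N6.u5_no244 hl hf h) hc ih
  | step k X u hu hs _ _ ih1 ih2 => exact N5.RD5.step k X u hu hs ih1 ih2

open Pool.Agent.Lib.MP_551055_al in
theorem Tame.lib {S : Type} {l : S → S → ℕ} (hl : ∀ s t, l s t = l t s) {k : ℕ}
    {X : Set S} (h : Tame l k X) : N5.ER5 l k X := by
  induction h with
  | depth X h => exact N5.ER5.base X (h.lib hl)
  | remove X u hu hf _ ih =>
    exact N5.ER5.remove X u hu hf.1 (fun t ht c hc htu hcu h1 h2 h3 =>
      hf.2 t ht c hc htu hcu ⟨h1, h2, h3⟩) ih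
  | mixed X u hu hm _ _ ih1 ih2 =>
    obtain ⟨⟨a, ha, hau, hla⟩, h1, h2⟩ := hm
    exact N5.ER5.mixed X u a hu h1 h2 ha hau hla ih1 ih2

/-! ## The theorem -/

open Pool.Agent.Lib.MP_551055_al in
/-- Let `l` be the half labels of an even Artin group with an arbitrary set of generators, and
`j + k ≤ 2`. Every finite set `X` of generators with finite labels is obtained from sets of depth
at most `k` by adding removable elements. Let `f` be a homomorphism of `G` to the Artin group, and
let `G` act on finitely many trees, such that the elements of the kernel of `f` which fix a tuple of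
vertices form a group of tree dimension at most `j`. Then the finitely generated projective modules
over `ℤ[G]` and over all `ℤ[G × ℤ^n]` are stably free. -/
theorem result (S : Type) (l : S → S → ℕ) (hl : ∀ s t, l s t = l t s) (j k : ℕ)
    (hjk : j + k ≤ 2)
    (hX : ∀ X : Set S, X.Finite → Clique l X → Tame l k X)
    (G : Type) [Group G] (f : G →* Artin l) (I : Type) [Finite I] (V : I → Type)
    [∀ i, MulAction G (V i)] (T : ∀ i, SimpleGraph (V i)) (hT : ∀ i, ActsOnTree G (V i) (T i))
    (hf : ∀ v : ∀ i, V i, TreeDimension j (f.ker ⊓ MulAction.stabilizer G v : Subgroup G)) :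
    AllStablyFree G ∧ ∀ n, AllStablyFree (G × Zn n) := by
  have h : ∀ n, AllStablyFree (G × Zn n) := N5.main5 S l hl j k hjk
    (fun X h1 h2 => (hX X h1 h2).lib hl) G f I V T
    (fun i => ⟨(hT i).tree, (hT i).adj, (hT i).inv⟩) fun v => (hf v).lib
  exact ⟨LS.projStFree_congr (MulEquiv.prodUnique (M := G) (N := Zn 0)) (h 0), h⟩

/-! ## Special cases -/

/-- Homomorphisms to even Artin groups without triangles `4, 4, 2` whose kernel has tree dimension
at most two. -/
theorem of_hom (S : Type) (l : S → S → ℕ)
    (hl : ∀ s t, l s t = l t s) (h : No244 l Set.univ) (G : Type) [Group G] (f : G →* Artin l)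
    (hf : TreeDimension 2 f.ker) : AllStablyFree G ∧ ∀ n, AllStablyFree (G × Zn n) := by
  refine result S l hl 2 0 le_rfl (fun X hX _ => Tame.depth X (Depth.zero 0 X hX
    fun s _ t _ v _ => h s trivial t trivial v trivial)) G f Empty (fun _ => Unit)
    (fun i => i.elim) (fun i => i.elim) fun v => ?_
  have h1 : (f.ker ⊓ MulAction.stabilizer G v : Subgroup G) = f.ker := by
    refine inf_eq_left.2 fun g _ => ?_
    rw [MulAction.mem_stabilizer_iff]
    exact funext fun i => i.elim
  rw [h1]
  exact hf

/-- Subgroups of even Artin groups without triangles `4, 4, 2`. -/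
theorem of_subgroup (S : Type) (l : S → S → ℕ)
    (hl : ∀ s t, l s t = l t s) (h : No244 l Set.univ) (G : Subgroup (Artin l)) :
    AllStablyFree G ∧ ∀ n, AllStablyFree (G × Zn n) :=
  of_hom S l hl h G G.subtype (TreeDimension.trivial 2 _ (by
    rw [(MonoidHom.ker_eq_bot_iff G.subtype).2 G.subtype_injective]
    infer_instance))

end Pool.Agent.Results.MP_551055_al.EvenArtin
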