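import Pool.Agent.Lib.MP_551055_al.Trim.JK.Final
import Pool.Agent.Lib.MP_551055_al.Trim.JK.Inv
import Pool.Agent.Lib.MP_551055_al.Trim.JK.Jung
import Pool.Agent.Lib.MP_551055_al.Trim.JK.Planes
import Pool.Agent.Lib.MP_551055_al.Trim.JK.Rel
import Pool.Agent.Lib.MP_551055_al.Trim.LD.NG
import Pool.Agent.Lib.MP_551055_al.Trim.LS.Final
import Pool.Agent.Lib.MP_551055_al.Trim.LS.PStmts
import Pool.Agent.Lib.MP_551055_al.Trim.LS.Stmts
import Pool.Agent.Lib.MP_551055_al.Trim.MT.RCU
import Pool.Agent.Lib.MP_551055_al.Trim.RI.Stmts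
import Pool.Agent.Lib.MP_551055_al.Trim.RO.Fields
import Pool.Agent.Lib.MP_551055_al.Trim.RO.Main
import Pool.Agent.Lib.MP_551055_al.Trim.RO.PGL
import Pool.Agent.Lib.MP_551055_al.Trim.RO.PGL1
import Pool.Agent.Lib.MP_551055_al.Trim.RO.Pi
import Pool.Agent.Lib.MP_551055_al.Trim.T4.Perf
import Pool.Agent.Lib.MP_551055_al.Trim.T6.GenF
import Pool.Agent.Lib.MP_551055_al.Trim.W17.Main

/-!
Stable freeness of finitely generated projective modules over `ℤ[G]` for torsion-free groups `G` of
polynomial automorphisms of affine planes, of `2 × 2` matrices, and of rotations.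

For instance `G` may be any torsion-free subgroup of
`Aut ℚ(X)[x, y] × Aut ℚ(Y)[x, y] × Aut R[x, y] × Aut M₂(R) × SO₃(L₁) × ... × SO₃(Lᵣ)`, where `X`
and `Y` are sets of variables, `R` is a commutative ring of positive characteristic and the `Lᵢ` are
fields of rational functions over totally real number fields. Here `Aut R[x, y]` contains `GL₂(R)`
and the group of affine transformations of `R²`, and `Aut M₂(R)` contains `PGL₂(R)`.
-/

set_option autoImplicit false

namespace Pool.Agent.Results.MP_551055_al.PlaneAutomorphisms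

/-- All finitely generated projective `ℤ[G]`-modules are stably free. -/
def AllStablyFree (G : Type) [Group G] : Prop :=
  ∀ (P : Type) [AddCommGroup P] [Module (MonoidAlgebra ℤ G) P],
    Module.Finite (MonoidAlgebra ℤ G) P → Module.Projective (MonoidAlgebra ℤ G) P →
      ∃ n m : ℕ, Nonempty ((P × (Fin n → MonoidAlgebra ℤ G)) ≃ₗ[MonoidAlgebra ℤ G]
        (Fin m → MonoidAlgebra ℤ G))

/-- The free abelian group of rank `n`, written multiplicatively. -/
abbrev Zn (n : ℕ) : Type := Multiplicative (Fin n → ℤ)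

/-- The set of all automorphisms of the polynomial algebra `R[x, y]` over `R`. -/
def Aut (R : Type) [CommRing R] : Type := MvPolynomial (Fin 2) R ≃ₐ[R] MvPolynomial (Fin 2) R

/-- The group of all automorphisms of the polynomial algebra `R[x, y]` over `R`. -/
noncomputable instance (R : Type) [CommRing R] : Group (Aut R) :=
  inferInstanceAs (Group (MvPolynomial (Fin 2) R ≃ₐ[R] MvPolynomial (Fin 2) R))

/-- The set of all automorphisms of the matrix algebra `M₂(R)` over `R`. -/
def AutM (R : Type) [CommRing R] : Type :=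
  Matrix (Fin 2) (Fin 2) R ≃ₐ[R] Matrix (Fin 2) (Fin 2) R

/-- The group of all automorphisms of the matrix algebra `M₂(R)` over `R`. -/
noncomputable instance (R : Type) [CommRing R] : Group (AutM R) :=
  inferInstanceAs (Group (Matrix (Fin 2) (Fin 2) R ≃ₐ[R] Matrix (Fin 2) (Fin 2) R))

/-- The rotations: the `3 × 3` matrices `A` over `L` with `A Aᵗ = 1` and `det A = 1`. -/
def SO3 (L : Type) [Field L] : Type := Matrix.specialOrthogonalGroup (Fin 3) L

/-- The group of rotations. -/
noncomputable instance (L : Type) [Field L] : Group (SO3 L) :=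
  inferInstanceAs (Group (Matrix.specialOrthogonalGroup (Fin 3) L))

/-- Every finitely generated `ℚ`-subalgebra of `F` has a `ℚ`-algebra homomorphism to `ℚ`. -/
def Pointed (F : Type) [Field F] [Algebra ℚ F] : Prop :=
  ∀ A : Subalgebra ℚ F, A.FG → Nonempty (A →ₐ[ℚ] ℚ)

/-- The complex conjugates of all sums of squares in `L` which are algebraic over `ℚ` are
nonnegative real numbers. -/
def Positive (L : Type) [Field L] [Algebra ℚ L] : Prop :=
  ∀ a : L, IsSumSq a → IsIntegral ℚ a →
    ∀ z : ℂ, Polynomial.aeval z (minpoly ℚ a) = 0 → z.im = 0 ∧ 0 ≤ z.re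

/-- `G` acts on the tree `T` without inversions. -/
structure ActsOnTree (G : Type) [Group G] (V : Type) [MulAction G V] (T : SimpleGraph V) : Prop where
  tree : T.IsTree
  adj : ∀ (g : G) (u v : V), T.Adj u v → T.Adj (g • u) (g • v)
  inv : ∀ (g : G) (u v : V), T.Adj u v → g • u = v → g • v ≠ u

/-- Poly-`ℤ` groups. -/
inductive PolyZ : ∀ (G : Type) [Group G], Prop
  | trivial (G : Type) [Group G] : Subsingleton G → PolyZ G
  | extension (G : Type) [Group G] (f : G →* Multiplicative ℤ) : Function.Surjective f →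
      PolyZ f.ker → PolyZ G

/-- Every finite subset is contained in a poly-`ℤ` subgroup. -/
def LocallyPolyZ (P : Type) [Group P] : Prop :=
  ∀ s : Finset P, ∃ K : Subgroup P, (s : Set P) ⊆ K ∧ PolyZ K

/-- `K` acts without inversions on finitely many trees such that every subgroup `E` which fixes a
vertex of every tree has a homomorphism to a commutative group and a homomorphism to a locally
poly-`ℤ` group such that there is no `g ≠ 1` in `E` in the kernels of both with the property `C`. -/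
def OnTrees (K : Type) [Group K] (C : K → Prop) : Prop :=
  ∃ (J : Type) (_ : Finite J) (V : J → Type) (_ : ∀ j, MulAction K (V j))
    (T : ∀ j, SimpleGraph (V j)), (∀ j, ActsOnTree K (V j) (T j)) ∧
      ∀ (v : ∀ j, V j) (E : Subgroup K), (∀ g ∈ E, ∀ j, g • v j = v j) →
        ∃ (M : Type) (_ : CommGroup M) (σ : E →* M) (P : Type) (_ : Group P) (π : E →* P),
          LocallyPolyZ P ∧ ∀ g : E, C g → σ g = 1 → π g = 1 → g = 1

/-- The property to be in the kernels of homomorphisms `ρ₁`, `ρ₂`, `ρ₃`, `ρ₄`, `τ i`. -/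
def InKernels {G A₁ A₂ A₃ A₄ I : Type} {B : I → Type} [Group G] [Group A₁] [Group A₂] [Group A₃]
    [Group A₄] [∀ i, Group (B i)] (ρ₁ : G →* A₁) (ρ₂ : G →* A₂) (ρ₃ : G →* A₃) (ρ₄ : G →* A₄)
    (τ : ∀ i, G →* B i) (g : G) : Prop :=
  ρ₁ g = 1 ∧ ρ₂ g = 1 ∧ ρ₃ g = 1 ∧ ρ₄ g = 1 ∧ ∀ i, τ i g = 1

section

open Pool.Agent.Lib.MP_551055_al

theorem PolyZ.toLib {G : Type} [Group G] (h : PolyZ G) : LS.PolyZ G := by
  induction h with
  | trivial G hG => exact LS.PolyZ.triv G hG
  | extension G f hf _ ih => exact LS.PolyZ.ext G f hf ih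

theorem LocallyPolyZ.toLib {P : Type} [Group P] (h : LocallyPolyZ P) : RI.LPZ P := fun s => by
  obtain ⟨K, hK, h1⟩ := h s
  exact ⟨K, hK, h1.toLib⟩

theorem of_all {G : Type} [Group G] (h : ∀ n, AllStablyFree (G × Zn n)) :
    AllStablyFree G ∧ ∀ n, AllStablyFree (G × Zn n) :=
  ⟨LS.projStFree_congr (MulEquiv.prodUnique (M := G) (N := Zn 0)) (h 0), h⟩

/-- Part (1). -/
theorem main {F F' : Type} [Field F] [Algebra ℚ F] [Field F'] [Algebra ℚ F'] (hF : Pointed F)
    (hF' : Pointed F') {R : Type} [CommRing R] {p : ℕ} (hp : p ≠ 0) (hR : (p : R) = 0) {I : Type}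
    [Finite I] {L : I → Type} [∀ i, Field (L i)] [∀ i, Algebra ℚ (L i)]
    (hL : ∀ i, Positive (L i)) {G : Type} [Group G] (htf : ∀ g : G, IsOfFinOrder g → g = 1)
    (ρ₁ : G →* Aut F) (ρ₂ : G →* Aut F') (ρ₃ : G →* Aut R) (ρ₄ : G →* AutM R)
    (τ : ∀ i, G →* SO3 (L i))
    (hK : ∀ K : Subgroup G, K.FG → OnTrees K fun g => InKernels ρ₁ ρ₂ ρ₃ ρ₄ τ g) (n : ℕ) :
    AllStablyFree (G × Zn n) := by
  refine JK.projStFree_final W17.t hF hF' p hp hR htf ρ₁ ρ₂
    (MonoidHom.prod ρ₄ (MonoidHom.pi τ))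
    ((RO.linC_pgl R p hp hR ρ₄).prod
      (JK.LinC.pi τ fun i => RO.linC_so3 (L i) (hL i) (τ i))) ρ₃ (fun K hKfg => ?_) n
  obtain ⟨J, hJ, V, act, T, hT, h⟩ := hK K hKfg
  refine ⟨J, hJ, fun j => ⟨V j, act j, T j, ⟨(hT j).tree, (hT j).adj, (hT j).inv⟩⟩,
    fun E hE => ?_⟩
  have h1 : ∀ j, ∃ v : V j, ∀ e ∈ E, e • v = v := hE
  choose v hv using h1
  obtain ⟨M, iM, σ, P, iP, π, hP, hg⟩ := h v E fun g hgE j => hv j g hgE
  refine ⟨M × P, inferInstance, ⟨M, iM, P, iP, MonoidHom.fst M P, MonoidHom.snd M P, hP.toLib,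
    fun x h1 h2 => Prod.ext h1 h2⟩, σ.prod π, fun g h1 h2 h3 h4 h5 => ?_⟩
  have h6 : ρ₄ g = 1 ∧ ∀ i, τ i g = 1 :=
    ⟨congrArg (fun z : AutM R × (∀ i, SO3 (L i)) => z.1) h3,
      fun i => congrArg (fun z : AutM R × (∀ i, SO3 (L i)) => z.2 i) h3⟩
  exact hg g ⟨h1, h2, h4, h6.1, h6.2⟩ (congrArg (fun z : M × P => z.1) h5)
    (congrArg (fun z : M × P => z.2) h5)

end

/-- Let `F` and `F'` be fields containing `ℚ` all of whose finitely generated `ℚ`-subalgebras have
a `ℚ`-algebra homomorphism to `ℚ`, `R` a commutative ring of positive characteristic and `Lᵢ`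
finitely many fields in which the sums of squares which are algebraic over `ℚ` are totally
nonnegative. Let `G` be a torsion-free group with homomorphisms to `Aut F[x, y]`, `Aut F'[x, y]`,
`Aut R[x, y]`, `Aut M₂(R)` and all `SO₃(Lᵢ)`.

(1) Suppose that these homomorphisms are jointly injective, or that every finitely generated subgroup
`K` of `G` acts without inversions on finitely many trees such that every subgroup `E` of `K` which
fixes a vertex of every tree has homomorphisms to a commutative group and to a locally poly-`ℤ`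
group which are jointly injective together with the restrictions of the homomorphisms above. Then
all finitely generated projective modules over `ℤ[G]` and all `ℤ[G × ℤ^n]` are stably free.

(2) The hypothesis on `F` and `F'` holds for the fields `ℚ(X)` of rational functions in any set `X`
of variables.

(3) The hypothesis on `Lᵢ` holds for the fields `k(X)` of rational functions in any set `X` of
variables over a totally real number field `k`. -/
theorem result :
    (∀ (F F' : Type) [Field F] [Algebra ℚ F] [Field F'] [Algebra ℚ F'], Pointed F → Pointed F' →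
      ∀ (R : Type) [CommRing R] (p : ℕ), p ≠ 0 → (p : R) = 0 →
      ∀ (I : Type) [Finite I] (L : I → Type) [∀ i, Field (L i)] [∀ i, Algebra ℚ (L i)],
      (∀ i, Positive (L i)) →
      ∀ (G : Type) [Group G], (∀ g : G, IsOfFinOrder g → g = 1) →
      ∀ (ρ₁ : G →* Aut F) (ρ₂ : G →* Aut F') (ρ₃ : G →* Aut R) (ρ₄ : G →* AutM R)
        (τ : ∀ i, G →* SO3 (L i)),
      ((∀ g, InKernels ρ₁ ρ₂ ρ₃ ρ₄ τ g → g = 1) ∨
        ∀ K : Subgroup G, K.FG → OnTrees K fun g => InKernels ρ₁ ρ₂ ρ₃ ρ₄ τ g) →
      AllStablyFree G ∧ ∀ n, AllStablyFree (G × Zn n)) ∧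
    (∀ X : Type, Pointed (FractionRing (MvPolynomial X ℚ))) ∧
    ∀ (k : Type) [Field k] [NumberField k] [NumberField.IsTotallyReal k] (X : Type),
      Positive (FractionRing (MvPolynomial X k)) := by
  refine ⟨fun F F' _ _ _ _ hF hF' R _ p hp hR I _ L _ _ hL G _ htf ρ₁ ρ₂ ρ₃ ρ₄ τ h => ?_,
    fun X A hA => Pool.Agent.Lib.MP_551055_al.RO.exists_point X ℚ _ A hA, fun k _ _ _ X => ?_⟩
  · refine of_all (main hF hF' hp hR hL htf ρ₁ ρ₂ ρ₃ ρ₄ τ fun K hK => ?_)
    rcases h with h | h
    · refine ⟨Empty, inferInstance, fun j => j.elim, fun j => j.elim, fun j => j.elim,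
        fun j => j.elim, fun v E _ => ⟨Unit, inferInstance, 1, Unit, inferInstance, 1,
          fun s => ⟨⊤, fun _ _ => Subgroup.mem_top _, PolyZ.trivial _ inferInstance⟩,
          fun g hg _ _ => ?_⟩⟩
      exact Subtype.ext (Subtype.ext (h _ hg))
    · exact h K hK
  · exact Pool.Agent.Lib.MP_551055_al.RO.totNonneg_rational X k
      (Pool.Agent.Lib.MP_551055_al.RO.totNonneg_numberField k) _

end Pool.Agent.Results.MP_551055_al.PlaneAutomorphisms
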