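import Pool.Agent.Lib.MP_551055_al.Trim.LD.NG
import Pool.Agent.Lib.MP_551055_al.Trim.LS.Final
import Pool.Agent.Lib.MP_551055_al.Trim.LS.PStmts
import Pool.Agent.Lib.MP_551055_al.Trim.LS.PStmts2
import Pool.Agent.Lib.MP_551055_al.Trim.LS.Stmts
import Pool.Agent.Lib.MP_551055_al.Trim.LS.Stmts3
import Pool.Agent.Lib.MP_551055_al.Trim.MT.Defs
import Pool.Agent.Lib.MP_551055_al.Trim.MT.Flow2
import Pool.Agent.Lib.MP_551055_al.Trim.MT.RCU
import Pool.Agent.Lib.MP_551055_al.Trim.MT.Small
import Pool.Agent.Lib.MP_551055_al.Trim.MT.StA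
import Pool.Agent.Lib.MP_551055_al.Trim.PT.PSub
import Pool.Agent.Lib.MP_551055_al.Trim.RI.Basic
import Pool.Agent.Lib.MP_551055_al.Trim.RI.HNN
import Pool.Agent.Lib.MP_551055_al.Trim.RI.HNN3
import Pool.Agent.Lib.MP_551055_al.Trim.RI.K
import Pool.Agent.Lib.MP_551055_al.Trim.RI.MainT
import Pool.Agent.Lib.MP_551055_al.Trim.RI.OfRC
import Pool.Agent.Lib.MP_551055_al.Trim.RI.Stmts
import Pool.Agent.Lib.MP_551055_al.Trim.RI.T2
import Pool.Agent.Lib.MP_551055_al.Trim.T4.Geo
import Pool.Agent.Lib.MP_551055_al.Trim.T4.Perf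
import Pool.Agent.Lib.MP_551055_al.Trim.T6.GenF
import Pool.Agent.Lib.MP_551055_al.Trim.T6.Lps
import Pool.Agent.Lib.MP_551055_al.Trim.T6.Nil
import Pool.Agent.Lib.MP_551055_al.Trim.T6.OfTwo
import Pool.Agent.Lib.MP_551055_al.Trim.W17.Main
import Pool.Agent.Lib.MP_551055_al.Trim.W17.StF

/-!
Stable freeness of finitely generated projective modules over `ℤ[G]`: inheritance along actions on
trees relative to families of subgroups.

We consider pairs `(G, F)` of a group `G` and a set `F` of subgroups of `G` and four classes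
`K₀ ⊆ K₁ ⊆ K₂ ⊆ K₃` of such pairs. They contain the pairs such that `G` acts on finitely many trees
and the groups in `F` which fix a vertex of each tree are base groups, and they are closed under
actions on trees: besides the vertex stabilisers `(Gᵥ, F | Gᵥ)` only the pairs `(G, F')` matter,
where `F'` consists of the groups in `F` which fix a translate of a long segment. They are also
closed under homomorphisms which are injective on the groups in the family, under local
approximation, and (levels zero and one) under products and extensions with poly-`ℤ` kernel.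
-/

set_option autoImplicit false

namespace Pool.Agent.Results.MP_551055_al.RelativeInheritance

/-- All finitely generated projective `ℤ[G]`-modules are stably free. -/
def AllStablyFree (G : Type) [Group G] : Prop :=
  ∀ (P : Type) [AddCommGroup P] [Module (MonoidAlgebra ℤ G) P],
    Module.Finite (MonoidAlgebra ℤ G) P → Module.Projective (MonoidAlgebra ℤ G) P →
      ∃ n m : ℕ, Nonempty ((P × (Fin n → MonoidAlgebra ℤ G)) ≃ₗ[MonoidAlgebra ℤ G]
        (Fin m → MonoidAlgebra ℤ G))

/-- The free abelian group of rank `n`, written multiplicatively. -/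
abbrev Zn (n : ℕ) : Type := Multiplicative (Fin n → ℤ)

/-- `M` has a resolution of length `d` by finitely generated projective modules. -/
def HasResolution (R : Type) [Ring R] : ℕ → ∀ (M : Type) [AddCommGroup M] [Module R M], Prop
  | 0, M, _, _ => Module.Finite R M ∧ Module.Projective R M
  | d + 1, M, _, _ => ∃ (n : ℕ) (f : (Fin n → R) →ₗ[R] M),
      Function.Surjective f ∧ HasResolution R d (LinearMap.ker f)

/-- The kernels over `R` are (stably) locally perfect: every finite set of elements of the kernel `K`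
of a linear map between finitely generated free modules is contained in a submodule of `K × R^m`,
for some `m`, which has a finite resolution by finitely generated projective modules. -/
def LocallyPerfectKernels (R : Type) [Ring R] : Prop :=
  ∀ (n a : ℕ) (f : (Fin n → R) →ₗ[R] (Fin a → R)) (s : Finset (Fin n → R)),
    (∀ x ∈ s, f x = 0) → ∃ (m : ℕ) (V : Submodule R ((Fin n → R) × (Fin m → R))),
      (∀ y ∈ V, f y.1 = 0) ∧ (∀ x ∈ s, ((x, 0) : (Fin n → R) × (Fin m → R)) ∈ V) ∧
        ∃ d, HasResolution R d V

/-- Poly-`ℤ` groups. -/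
inductive PolyZ : ∀ (G : Type) [Group G], Prop
  | trivial (G : Type) [Group G] : Subsingleton G → PolyZ G
  | extension (G : Type) [Group G] (f : G →* Multiplicative ℤ) : Function.Surjective f →
      PolyZ f.ker → PolyZ G

/-- Locally poly-`ℤ` groups. -/
def LocallyPolyZ (P : Type) [Group P] : Prop :=
  ∀ s : Finset P, ∃ K : Subgroup P, (s : Set P) ⊆ K ∧ PolyZ K

/-- For all `n` the finitely generated projective `ℤ[P × ℤ^n]`-modules are stably free and the
kernels over `ℤ[P × ℤ^n]` are locally perfect. -/
def Perfect (P : Type) [Group P] : Prop :=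
  ∀ n : ℕ, AllStablyFree (P × Zn n) ∧ LocallyPerfectKernels (MonoidAlgebra ℤ (P × Zn n))

/-- The base groups. Level zero: locally poly-`ℤ` groups. Level one: groups `P` such that all groups
which have a homomorphism with poly-`ℤ` kernel to `P × A`, for some locally poly-`ℤ` group `A`, are
perfect. Level two (and three): perfect groups. -/
def Base : ℕ → ∀ (P : Type) [Group P], Prop
  | 0, P, _ => LocallyPolyZ P
  | 1, P, _ => ∀ (R A : Type) [Group R] [Group A] (g : R →* P × A), LocallyPolyZ A →
      PolyZ g.ker → Perfect R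
  | _ + 2, P, _ => Perfect P

/-- A tree on which `G` acts without inversions. -/
structure Tree (G : Type) [Group G] where
  V : Type
  act : MulAction G V
  T : SimpleGraph V
  tree : T.IsTree
  adj : ∀ (g : G) (u v : V), T.Adj u v → T.Adj (g • u) (g • v)
  inv : ∀ (g : G) (u v : V), T.Adj u v → g • u = v → g • v ≠ u

attribute [instance] Tree.act

/-- `S` is a set of long segments: a set of segments `[u, v]` which is closed under prolongation at
the end `v` and contains an initial segment of every infinite reduced ray. -/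
structure LongSegments {V : Type} (T : SimpleGraph V) (S : V → V → Prop) : Prop where
  prolong : ∀ u v w, S u v → T.Adj v w → T.dist u w = T.dist u v + 1 → S u w
  ray : ∀ x : ℕ → V, (∀ k, T.Adj (x k) (x (k + 1))) → (∀ k, x k ≠ x (k + 2)) →
    ∃ k, 1 ≤ k ∧ S (x 0) (x k)

/-- `E` fixes a vertex. -/
def Tree.FixesVertex {G : Type} [Group G] (t : Tree G) (E : Subgroup G) : Prop :=
  ∃ v : t.V, ∀ e ∈ E, e • v = v

/-- `E` fixes a translate of the segment `[u, v]`. -/
def Tree.FixesTranslate {G : Type} [Group G] (t : Tree G) (u v : t.V) (E : Subgroup G) : Prop :=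
  ∃ g : G, ∀ e ∈ E, e • g • u = g • u ∧ e • g • v = g • v

/-- The kernel of `f` on `E` is harmless: it is trivial or (levels zero and one) there is a
homomorphism `p` from `E` to a locally poly-`ℤ` group such that the elements of `E` which are
trivial under `f` and `p` form a poly-`ℤ` group. -/
def HarmlessKernel (l : ℕ) {G H : Type} [Group G] [Group H] (f : H →* G) (E : Subgroup H) : Prop :=
  (∀ x ∈ E, f x = 1 → x = 1) ∨ (l ≤ 1 ∧ ∃ (P : Type) (_ : Group P) (p : E →* P),
    LocallyPolyZ P ∧ PolyZ ((f.comp E.subtype).prod p).ker)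

/-- The classes `K₀ ⊆ K₁ ⊆ K₂ ⊆ K₃` of pairs `(G, F)`, where `F` is a set of subgroups of `G`. -/
inductive K : ℕ → ∀ (G : Type) [Group G], (Subgroup G → Prop) → Prop
  /-- `G` acts on finitely many trees and the groups in `F` which fix a vertex of each tree are base
  groups. -/
  | base (l : ℕ) (G : Type) [Group G] (F : Subgroup G → Prop) (I : Type) [Finite I]
      (t : I → Tree G) :
      (∀ E : Subgroup G, F E → (∀ i, (t i).FixesVertex E) → Base l E) → K l G F
  /-- For all `H` in `F` the finitely generated projective `ℤ[H × ℤ^n]`-modules are stably free. -/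
  | good (G : Type) [Group G] (F : Subgroup G → Prop) :
      (∀ H : Subgroup G, F H → ∀ n : ℕ, AllStablyFree (H × Zn n)) → K 3 G F
  /-- Actions on trees. -/
  | tree (l : ℕ) (G : Type) [Group G] (F : Subgroup G → Prop) (t : Tree G)
      (S : t.V → t.V → Prop) : LongSegments t.T S →
      (∀ v : t.V, K l (MulAction.stabilizer G v)
        fun E => F (E.map (MulAction.stabilizer G v).subtype)) →
      (∀ u v : t.V, S u v → u ≠ v → K (min l 2) G fun E => F E ∧ t.FixesTranslate u v E) → K l G F
  /-- Local approximation. -/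
  | approx (l : ℕ) (G : Type) [Group G] (F : Subgroup G → Prop) (H : Finset G → Type)
      [∀ s, Group (H s)] (f : ∀ s, H s →* G) (σ : ∀ s, G → H s) :
      (∀ s, ∀ g ∈ s, f s (σ s g) = g) →
      (∀ s, ∀ a ∈ s, ∀ b ∈ s, a * b ∈ s → σ s a * σ s b = σ s (a * b)) →
      (∀ s, K l (H s) fun E => F (E.map (f s))) → K l G F
  /-- Homomorphisms with harmless kernels on the groups in the family which fix a vertex of each of
  finitely many trees. -/
  | lift (l : ℕ) (G H : Type) [Group G] [Group H] (F : Subgroup G → Prop) (F' : Subgroup H → Prop)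
      (f : H →* G) (J : Type) [Finite J] (t : J → Tree H) : (3 ≤ l → IsEmpty J) →
      (∀ E : Subgroup H, F' E → F (E.map f)) →
      (∀ E : Subgroup H, F' E → (∀ j, (t j).FixesVertex E) → HarmlessKernel l f E) →
      K l G F → K l H F'
  /-- Products. -/
  | product (l : ℕ) (G A : Type) [Group G] [Group A] (F : Subgroup G → Prop)
      (F' : Subgroup A → Prop) : l ≤ 1 → K l G F → K 0 A F' →
      K l (G × A) fun E => F (E.map (MonoidHom.fst G A)) ∧ F' (E.map (MonoidHom.snd G A))
  | mono (l : ℕ) (G : Type) [Group G] (F : Subgroup G → Prop) : K l G F → K (l + 1) G F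

section

open Pool.Agent.Lib.MP_551055_al

theorem hasResolution_iff (R : Type) [Ring R] (d : ℕ) : ∀ (M : Type) [AddCommGroup M] [Module R M],
    HasResolution R d M ↔ LS.FFR R d M := by
  induction d with
  | zero => intro M _ _; exact Iff.rfl
  | succ d ih =>
    intro M _ _
    constructor
    · rintro ⟨n, f, hf, h⟩
      exact ⟨n, f, hf, (ih _).1 h⟩
    · rintro ⟨n, f, hf, h⟩
      exact ⟨n, f, hf, (ih _).2 h⟩

theorem locallyPerfectKernels_iff (R : Type) [Ring R] : LocallyPerfectKernels R ↔ T6.LPS R := by
  constructor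
  · intro h n a f s hs
    obtain ⟨m, V, h1, h2, d, hd⟩ := h n a f s hs
    exact ⟨m, V, h1, h2, d, (hasResolution_iff _ d V).1 hd⟩
  · intro h n a f s hs
    obtain ⟨m, V, h1, h2, d, hd⟩ := h n a f s hs
    exact ⟨m, V, h1, h2, d, (hasResolution_iff _ d V).2 hd⟩

theorem PolyZ.toLib {G : Type} [Group G] (h : PolyZ G) : LS.PolyZ G := by
  induction h with
  | trivial G hG => exact LS.PolyZ.triv G hG
  | extension G f hf _ ih => exact LS.PolyZ.ext G f hf ih

theorem PolyZ.ofLib {G : Type} [Group G] (h : LS.PolyZ G) : PolyZ G := by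
  induction h with
  | triv G hG => exact PolyZ.trivial G hG
  | ext G f hf _ ih => exact PolyZ.extension G f hf ih

theorem locallyPolyZ_iff (P : Type) [Group P] : LocallyPolyZ P ↔ RI.LPZ P := by
  constructor
  · intro h s
    obtain ⟨K, h1, h2⟩ := h s
    exact ⟨K, h1, h2.toLib⟩
  · intro h s
    obtain ⟨K, h1, h2⟩ := h s
    exact ⟨K, h1, PolyZ.ofLib h2⟩

theorem perfect_iff (P : Type) [Group P] : Perfect P ↔ RI.PB P := by
  constructor
  · exact fun h => ⟨fun n => (h n).1, fun n => (locallyPerfectKernels_iff _).1 (h n).2⟩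
  · exact fun h n => ⟨h.1 n, (locallyPerfectKernels_iff _).2 (h.2 n)⟩

theorem base_iff (l : ℕ) (P : Type) [Group P] : Base l P ↔ RI.XT.Bs l P := by
  obtain _ | _ | l := l
  · exact locallyPolyZ_iff P
  · constructor
    · exact fun h R A _ _ g hA hg => (perfect_iff R).1 (h R A g ((locallyPolyZ_iff A).2 hA)
        (PolyZ.ofLib hg))
    · exact fun h R A _ _ g hA hg => (perfect_iff R).2 (h R A g ((locallyPolyZ_iff A).1 hA)
        hg.toLib)
  · exact perfect_iff P

/-- The tree in the library. -/
def Tree.toLib {G : Type} [Group G] (t : Tree G) : RI.BTree G :=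
  ⟨t.V, t.act, t.T, ⟨t.tree, t.adj, t.inv⟩⟩

/-- The tree from the library. -/
def Tree.ofLib {G : Type} [Group G] (t : RI.BTree G) : Tree G :=
  ⟨t.V, t.act, t.T, t.tree.tree, t.tree.adj, t.tree.inv⟩

theorem K.toLib {l : ℕ} {G : Type} [Group G] {F : Subgroup G → Prop} (h : K l G F) :
    RI.XT.K l G F := by
  induction h with
  | base l G F I t h =>
    exact RI.Cls.K.base l G F I (fun i => (t i).toLib) fun E hE hfix =>
      (base_iff l E).1 (h E hE hfix)
  | good G F h => exact RI.Cls.K.good G F h
  | tree l G F t S hS _ _ ih1 ih2 =>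
    exact RI.Cls.K.tree l G F t.toLib S ⟨hS.prolong, hS.ray⟩ ih1 ih2
  | approx l G F H f σ h1 h2 _ ih =>
    exact RI.Cls.K.colim l G F H f σ (fun s => ⟨h1 s, h2 s⟩) ih
  | lift l G H F F' f J t h0 h1 h2 _ ih =>
    refine RI.Cls.K.lift l G F H f F' J (fun j => (t j).toLib) h0 (fun v E hE hF => ?_) h1 ih
    rcases h2 E hF fun j => ⟨v j, fun e he => hE he j⟩ with h3 | ⟨h3, P, _, p, hP, hp⟩
    · exact Or.inl h3
    · exact Or.inr ⟨h3, P, inferInstance, p, (locallyPolyZ_iff P).1 hP, hp.toLib⟩
  | product l G A F F' hl _ _ ih ih' => exact RI.Cls.K.prod l G A F F' hl ih ih'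
  | mono l G F _ ih => exact RI.Cls.K.mono l G F ih

end

/-- If the pair of the group `G` and the set of all its subgroups is in one of the classes, then the
finitely generated projective modules over `ℤ[G]` and over all `ℤ[G × ℤ^n]` are stably free. -/
theorem result (l : ℕ) (G : Type) [Group G] (hG : K l G fun _ => True) :
    AllStablyFree G ∧ ∀ n, AllStablyFree (G × Zn n) :=
  ⟨Pool.Agent.Lib.MP_551055_al.LS.projStFree_congr (MulEquiv.prodUnique (M := G) (N := Zn 0))
    (Pool.Agent.Lib.MP_551055_al.RI.k_good
      (Pool.Agent.Lib.MP_551055_al.RI.xt_ok Pool.Agent.Lib.MP_551055_al.W17.t) hG.toLib 0),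
    fun n => Pool.Agent.Lib.MP_551055_al.RI.k_good
      (Pool.Agent.Lib.MP_551055_al.RI.xt_ok Pool.Agent.Lib.MP_551055_al.W17.t) hG.toLib n⟩

/-! ## Base groups -/

section

open Pool.Agent.Lib.MP_551055_al

/-- The kernels of all linear maps between finitely generated free left modules have finite
resolutions by finitely generated free modules. -/
def KernelsResolved (R : Type) [Ring R] : Prop :=
  ∀ (n m : ℕ) (f : (Fin n → R) →ₗ[R] (Fin m → R)), ∃ d, LS.FFF R d (LinearMap.ker f)

/-- Small groups are perfect. -/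
theorem perfect_of_small (P : Type) [Group P]
    (h : ∀ m : ℕ, KernelsResolved (MonoidAlgebra ℤ (P × Zn m))) : Perfect P :=
  (perfect_iff P).2 (RI.PB.of_rcs ((MT.rcs_iff P).2 h))

/-- Groups of dimension at most two such that the projective modules are stably free are
perfect. -/
theorem perfect_of_dimensionTwo (P : Type) [Group P] (h : ∀ n, AllStablyFree (P × Zn n))
    (h2 : ∀ (k : Type) [Field k] (a b : ℕ)
      (f : (Fin a → MonoidAlgebra k P) →ₗ[MonoidAlgebra k P] (Fin b → MonoidAlgebra k P)),
      Module.Projective (MonoidAlgebra k P) (LinearMap.ker f)) : Perfect P :=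
  (perfect_iff P).2 ⟨h, T6.StLPS.of_two h2⟩

/-- Groups which act on a tree such that the vertex stabilisers act on trees with poly-`ℤ` vertex
stabilisers are base groups of level one: for instance products of two free groups. -/
theorem base_one_of_trees (P : Type) [Group P] (t : Tree P)
    (h : ∀ v : t.V, ∃ t' : Tree (MulAction.stabilizer P v),
      ∀ w : t'.V, PolyZ (MulAction.stabilizer (MulAction.stabilizer P v) w)) : Base 1 P := by
  refine (base_iff 1 P).2 (RI.T2.b1 (RI.T2.of_tree t.toLib fun v => ?_))
  obtain ⟨t', h'⟩ := h v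
  exact RI.T1.of_tree t'.toLib fun w => (h' w).toLib

/-- The base groups of level zero are base groups of level one. -/
theorem Base.one {P : Type} [Group P] (h : Base 0 P) : Base 1 P :=
  (base_iff 1 P).2 (RI.e_b1 (RI.xt_ok W17.t) ((base_iff 0 P).1 h))

/-- The base groups of level one are perfect. -/
theorem Base.two {P : Type} [Group P] (h : Base 1 P) : Base 2 P :=
  (base_iff 2 P).2 (RI.B1.b (RI.xt_ok W17.t) ((base_iff 1 P).1 h))

/-- Subgroups of base groups of level one. -/
theorem Base.subgroup {P Q : Type} [Group P] [Group Q] (h : Base 1 P) (i : Q →* P)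
    (hi : Function.Injective i) : Base 1 Q :=
  (base_iff 1 Q).2 (RI.B1.inj (RI.xt_ok W17.t) i hi ((base_iff 1 P).1 h))

end

/-! ## Consequences -/

section

variable {l : ℕ} {G H : Type} [Group G] [Group H]

/-- Homomorphisms which are injective on the groups in the family. -/
theorem K.of_injOn {F : Subgroup G → Prop} (h : K l G F) {F' : Subgroup H → Prop} (f : H →* G)
    (hf : ∀ E, F' E → F (E.map f) ∧ ∀ x ∈ E, f x = 1 → x = 1) : K l H F' :=
  K.lift l G H F F' f Empty (fun j => j.elim) (fun _ => inferInstance) (fun E hE => (hf E hE).1)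
    (fun E hE _ => Or.inl (hf E hE).2) h

/-- Subgroups. -/
theorem K.subgroup (h : K l G fun _ => True) (f : H →* G) (hf : Function.Injective f) :
    K l H fun _ => True :=
  h.of_injOn f fun _ _ => ⟨trivial, fun _ _ hx => hf (hx.trans (map_one f).symm)⟩

/-- The levels. -/
theorem K.level {m : ℕ} (hlm : l ≤ m) {F : Subgroup G → Prop} (h : K l G F) : K m G F := by
  induction m, hlm using Nat.le_induction with
  | base => exact h
  | succ m _ ih => exact K.mono m G F ih

/-- Extensions with poly-`ℤ` kernel. -/
theorem K.extension (hl : l ≤ 1) (h : K l G fun _ => True) (f : H →* G) (hf : PolyZ f.ker) :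
    K l H fun _ => True := by
  refine K.lift l G H _ _ f Empty (fun j => j.elim) (fun _ => inferInstance) (fun _ _ => trivial)
    (fun E _ _ => Or.inr ⟨hl, PUnit, inferInstance, 1, ?_, ?_⟩) h
  · exact fun _ => ⟨⊤, fun _ _ => trivial, PolyZ.trivial _ inferInstance⟩
  · refine PolyZ.ofLib (Pool.Agent.Lib.MP_551055_al.PT.PSub.of_injective f.ker hf.toLib _
      ((E.subtype.comp (Subgroup.subtype _)).codRestrict f.ker fun x => ?_) ?_)
    · exact congrArg Prod.fst (show ((f.comp E.subtype).prod 1) x.1 = 1 from x.2)
    · intro x y hxy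
      exact Subtype.ext (Subtype.ext (congrArg (fun z : f.ker => (z : H)) hxy))

/-- Products. -/
theorem K.prod (hl : l ≤ 1) (hG : K l G fun _ => True) (hH : K 0 H fun _ => True) :
    K l (G × H) fun _ => True :=
  (K.product l G H _ _ hl hG hH).of_injOn (MonoidHom.id _) fun _ _ =>
    ⟨⟨trivial, trivial⟩, fun _ _ hx => hx⟩

/-- Directed unions. -/
theorem K.union (h : ∀ s : Finset G, ∃ H : Subgroup G, (s : Set G) ⊆ H ∧ K l H fun _ => True) :
    K l G fun _ => True := by
  classical
  choose U h1 h2 using h
  refine K.approx l G _ (fun s => U s) (fun s => (U s).subtype)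
    (fun s g => if hg : g ∈ U s then ⟨g, hg⟩ else 1) (fun s g hg => ?_)
    (fun s a ha b hb hab => ?_) h2
  · have h3 : g ∈ U s := h1 s hg
    rw [dif_pos h3]
    rfl
  · have h3 : a ∈ U s := h1 s ha
    have h4 : b ∈ U s := h1 s hb
    have h5 : a * b ∈ U s := h1 s hab
    rw [dif_pos h3, dif_pos h4, dif_pos h5]
    rfl

/-- Actions on trees: the vertex stabilisers are in the class and for every long segment there is a
homomorphism from `G` to a group in the class which is injective on the stabiliser of the long
segment. -/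
theorem K.of_tree (t : Tree G) (S : t.V → t.V → Prop) (hS : LongSegments t.T S)
    (hv : ∀ v : t.V, K l (MulAction.stabilizer G v) fun _ => True)
    (hs : ∀ u v : t.V, S u v → u ≠ v → ∃ (Q : Type) (_ : Group Q) (f : G →* Q),
      (K (min l 2) Q fun _ => True) ∧ ∀ x : G, x • u = u → x • v = v → f x = 1 → x = 1) :
    K l G fun _ => True := by
  refine K.tree l G _ t S hS hv fun u v huv hne => ?_
  obtain ⟨Q, _, f, hQ, hf⟩ := hs u v huv hne
  refine hQ.of_injOn f ?_
  rintro E ⟨-, g, hg⟩
  refine ⟨trivial, fun x hx hx1 => ?_⟩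
  obtain ⟨h1, h2⟩ := hg x hx
  have h3 : g⁻¹ * x * g = 1 := by
    refine hf _ ?_ ?_ ?_
    · rw [mul_smul, mul_smul, h1, inv_smul_smul]
    · rw [mul_smul, mul_smul, h2, inv_smul_smul]
    · rw [map_mul, map_mul, hx1, mul_one, ← map_mul, inv_mul_cancel, map_one]
  have h4 : x = g * (g⁻¹ * x * g) * g⁻¹ := by group
  rw [h4, h3, mul_one, mul_inv_cancel]

/-- Actions on trees, all segments are long: it suffices to consider the edges. -/
theorem K.of_edges (t : Tree G) (hv : ∀ v : t.V, K l (MulAction.stabilizer G v) fun _ => True)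
    (hs : ∀ u v : t.V, t.T.Adj u v → ∃ (Q : Type) (_ : Group Q) (f : G →* Q),
      (K (min l 2) Q fun _ => True) ∧ ∀ x : G, x • u = u → x • v = v → f x = 1 → x = 1) :
    K l G fun _ => True := by
  refine K.of_tree t (fun u v => u ≠ v) ⟨?_, ?_⟩ hv fun u v huv _ => ?_
  · rintro u v w - hvw hd rfl
    rw [SimpleGraph.dist_self] at hd
    omega
  · exact fun x hx _ => ⟨1, le_rfl, (hx 0).ne⟩
  · obtain ⟨w, hw, hle⟩ := Pool.Agent.Lib.MP_551055_al.T4.exists_edge_stab (D := G)
      (V := t.V) ⟨t.tree, t.adj, t.inv⟩ huv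
    obtain ⟨Q, _, f, hQ, hf⟩ := hs w v hw
    refine ⟨Q, inferInstance, f, hQ, fun x hu hx hx1 => ?_⟩
    have h1 : x ∈ MulAction.stabilizer G (w, v) := hle (Prod.ext hu hx)
    exact hf x (congrArg Prod.fst (show x • (w, v) = (w, v) from h1)) hx hx1

/-- HNN extensions `G*_C` such that there is a homomorphism to a group in the class which is
injective on `C`. -/
theorem K.hnn (h : K l G fun _ => True) (A B : Subgroup G) (φ : A ≃* B) {Q : Type} [Group Q]
    (hQ : K (min l 2) Q fun _ => True) (f : HNNExtension G A B φ →* Q)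
    (hf : ∀ x ∈ A, f (HNNExtension.of x) = 1 → x = 1) :
    K l (HNNExtension G A B φ) fun _ => True := by
  refine K.of_edges (Tree.ofLib ⟨_, inferInstance, _,
    Pool.Agent.Lib.MP_551055_al.RI.hT_treeAct A B φ⟩) (fun v => ?_) fun u v huv =>
      ⟨Q, inferInstance, f, hQ, fun x hu hv hx =>
        Pool.Agent.Lib.MP_551055_al.RI.hnn_edge_inj f hf huv hu hv hx⟩
  obtain ⟨i, hi⟩ := Pool.Agent.Lib.MP_551055_al.RI.exists_stab_hV (A := A) (B := B) (φ := φ) v
  exact h.subgroup i hi

/-- Centralisers may be extended: for every subgroup `C` of `G` the group obtained from `G` by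
adding a new element which commutes with the elements of `C` is in the class. -/
theorem K.centraliser (hl : l ≤ 2) (h : K l G fun _ => True) (C : Subgroup G) :
    K l (HNNExtension G C C (MulEquiv.refl C)) fun _ => True := by
  refine h.hnn C C (MulEquiv.refl C) (by rwa [Nat.min_eq_left hl])
    (HNNExtension.lift (MonoidHom.id G) 1 fun a => ?_) fun x _ hx => ?_
  · simp
  · rw [HNNExtension.lift_of] at hx
    exact hx

/-- Groups which act on finitely many trees such that all subgroups which fix a vertex of each tree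
are perfect. -/
theorem K.of_trees (I : Type) [Finite I] (t : I → Tree G)
    (h : ∀ E : Subgroup G, (∀ i, (t i).FixesVertex E) → Perfect E) : K 2 G fun _ => True :=
  K.base 2 G _ I t fun E _ hE => h E hE

/-- Groups such that the finitely generated projective modules over all `ℤ[H × ℤ^n]`, `H` a
subgroup, are stably free: for instance, by a theorem of Bartels, Lück and Reich, the torsion-free
groups which satisfy the Farrell-Jones conjecture. -/
theorem K.of_good (h : ∀ (H : Subgroup G) (n : ℕ), AllStablyFree (H × Zn n)) :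
    K 3 G fun _ => True :=
  K.good G _ fun H _ => h H

end

end Pool.Agent.Results.MP_551055_al.RelativeInheritance
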