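import Pool.Agent.Lib.MP_551055_al.Trim.LO.Base
import Pool.Agent.Lib.MP_551055_al.Trim.LO.Sub
import Pool.Agent.Lib.MP_551055_al.Trim.LS.Clo
import Pool.Agent.Lib.MP_551055_al.Trim.LS.Clo2
import Pool.Agent.Lib.MP_551055_al.Trim.LS.Final
import Pool.Agent.Lib.MP_551055_al.Trim.LS.Main
import Pool.Agent.Lib.MP_551055_al.Trim.LS.PStmts
import Pool.Agent.Lib.MP_551055_al.Trim.LS.Stmts
import Pool.Agent.Lib.MP_551055_al.Trim.LS.Stmts3
import Pool.Agent.Lib.MP_551055_al.Trim.MT.Flow2
import Pool.Agent.Lib.MP_551055_al.Trim.MT.K1
import Pool.Agent.Lib.MP_551055_al.Trim.PT.Clo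
import Pool.Agent.Lib.MP_551055_al.Trim.PT.PSub
import Pool.Agent.Lib.MP_551055_al.Trim.RI.FinalH
import Pool.Agent.Lib.MP_551055_al.Trim.RI.HNN
import Pool.Agent.Lib.MP_551055_al.Trim.RI.LiftNil
import Pool.Agent.Lib.MP_551055_al.Trim.RI.Stmts
import Pool.Agent.Lib.MP_551055_al.Trim.T4.Alg
import Pool.Agent.Lib.MP_551055_al.Trim.T4.Cd
import Pool.Agent.Lib.MP_551055_al.Trim.T4.FinalT
import Pool.Agent.Lib.MP_551055_al.Trim.T4.Geo
import Pool.Agent.Lib.MP_551055_al.Trim.T4.GlDim
import Pool.Agent.Lib.MP_551055_al.Trim.T4.TwoClo
import Pool.Agent.Lib.MP_551055_al.Trim.T5.SocP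
import Pool.Agent.Lib.MP_551055_al.Trim.T6.Clo
import Pool.Agent.Lib.MP_551055_al.Trim.T6.Lps
import Pool.Agent.Lib.MP_551055_al.Trim.T6.Nil
import Pool.Agent.Lib.MP_551055_al.Trim.T6.OfTwo
import Pool.Agent.Lib.MP_551055_al.Trim.VNDefs
import Pool.Agent.Lib.MP_551055_al.Trim.W17.Main
import Pool.Agent.Lib.MP_551055_al.Trim.W17.StF

/-!
Stable freeness of finitely generated projective modules over `ℤ[G]` for groups acting on finitely
many trees. There is no condition of coherence, finiteness or cocompactness. If `G` acts on finitely
many trees, the stabilisers of the tuples of vertices and edges have to be good, and for the tuples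
with one long segment they have to be in a class `L` which contains the groups of dimension at most
two and the groups with regular coherent group rings.
-/

set_option autoImplicit false

namespace Pool.Agent.Results.MP_551055_al.SeveralTrees

/-- All finitely generated projective `ℤ[G]`-modules are stably free. -/
def AllStablyFree (G : Type) [Group G] : Prop :=
  ∀ (P : Type) [AddCommGroup P] [Module (MonoidAlgebra ℤ G) P],
    Module.Finite (MonoidAlgebra ℤ G) P → Module.Projective (MonoidAlgebra ℤ G) P →
      ∃ n m : ℕ, Nonempty ((P × (Fin n → MonoidAlgebra ℤ G)) ≃ₗ[MonoidAlgebra ℤ G]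
        (Fin m → MonoidAlgebra ℤ G))

/-- The free abelian group of rank `n`, written multiplicatively. -/
abbrev Zn (n : ℕ) : Type := Multiplicative (Fin n → ℤ)

/-- `M` has a resolution of length `d` by finitely generated projective modules. -/
def HasResolution (R : Type) [Ring R] : ℕ → ∀ (M : Type) [AddCommGroup M] [Module R M], Prop
  | 0, M, _, _ => Module.Finite R M ∧ Module.Projective R M
  | d + 1, M, _, _ => ∃ (n : ℕ) (f : (Fin n → R) →ₗ[R] M),
      Function.Surjective f ∧ HasResolution R d (LinearMap.ker f)

/-- `R` is regular coherent: every finitely presented left module has a finite resolution by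
finitely generated projective modules. -/
def RegularCoherent (R : Type) [Ring R] : Prop :=
  ∀ (M : Type) [AddCommGroup M] [Module R M], Module.FinitePresentation R M →
    ∃ d, HasResolution R d M

/-- The kernels over `R` are (stably) locally perfect: every finite set of elements of the kernel `K`
of a linear map between finitely generated free modules is contained in a submodule of `K × R^m`,
for some `m`, which has a finite resolution by finitely generated projective modules. -/
def LocallyPerfectKernels (R : Type) [Ring R] : Prop :=
  ∀ (n a : ℕ) (f : (Fin n → R) →ₗ[R] (Fin a → R)) (s : Finset (Fin n → R)),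
    (∀ x ∈ s, f x = 0) → ∃ (m : ℕ) (V : Submodule R ((Fin n → R) × (Fin m → R))),
      (∀ y ∈ V, f y.1 = 0) ∧ (∀ x ∈ s, ((x, 0) : (Fin n → R) × (Fin m → R)) ∈ V) ∧
        ∃ d, HasResolution R d V

/-- Poly-`ℤ` groups. -/
inductive PolyZ : ∀ (G : Type) [Group G], Prop
  | trivial (G : Type) [Group G] : Subsingleton G → PolyZ G
  | extension (G : Type) [Group G] (f : G →* Multiplicative ℤ) : Function.Surjective f →
      PolyZ f.ker → PolyZ G

/-- `D` is poly-`ℤ`, or all group rings `ℤ[D × ℤ^m]` are regular coherent. -/
def Small (D : Type) [Group D] : Prop :=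
  PolyZ D ∨ ∀ m : ℕ, RegularCoherent (MonoidAlgebra ℤ (D × Zn m))

/-- `D` has dimension at most two: for every field `k` the kernels of the linear maps between
finitely generated free `k[D]`-modules are projective (this holds if the cohomological dimension of
`D` over every field is at most two). -/
def DimensionTwo (D : Type) [Group D] : Prop :=
  ∀ (k : Type) [Field k] (a b : ℕ)
    (f : (Fin a → MonoidAlgebra k D) →ₗ[MonoidAlgebra k D] (Fin b → MonoidAlgebra k D)),
    Module.Projective (MonoidAlgebra k D) (LinearMap.ker f)

/-- `G` acts on the tree `T` without inversions. -/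
structure ActsOnTree (G : Type) [Group G] (V : Type) [MulAction G V] (T : SimpleGraph V) : Prop where
  tree : T.IsTree
  adj : ∀ (g : G) (u v : V), T.Adj u v → T.Adj (g • u) (g • v)
  inv : ∀ (g : G) (u v : V), T.Adj u v → g • u = v → g • v ≠ u

/-- The smallest class of groups which contains the small groups, the groups of dimension at most
two and all groups `D` such that the kernels over all `ℤ[D × ℤ^m]` are locally perfect, all groups
whose finite subsets are contained in subgroups in the class, and all groups which act without
inversions on a tree such that the vertex stabilisers are in the class and the edge stabilisers are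
small. -/
inductive L : ∀ (D : Type) [Group D], Prop
  | small (D : Type) [Group D] : Small D → L D
  | dimension (D : Type) [Group D] : DimensionTwo D → L D
  | perfect (D : Type) [Group D] :
      (∀ m : ℕ, LocallyPerfectKernels (MonoidAlgebra ℤ (D × Zn m))) → L D
  | union (D : Type) [Group D] (H : Finset D → Subgroup D) : (∀ s, ∀ g ∈ s, g ∈ H s) →
      (∀ s, L (H s)) → L D
  | tree (D : Type) [Group D] (V : Type) [MulAction D V] (T : SimpleGraph V) : ActsOnTree D V T →
      (∀ v : V, L (MulAction.stabilizer D v)) →
      (∀ u v : V, T.Adj u v → Small (MulAction.stabilizer D (u, v))) → L D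

/-- `S` is a set of long segments: a set of segments `[u, v]` which is closed under prolongation at
the end `v` and contains an initial segment of every infinite reduced ray. -/
structure LongSegments {V : Type} (T : SimpleGraph V) (S : V → V → Prop) : Prop where
  prolong : ∀ u v w, S u v → T.Adj v w → T.dist u w = T.dist u v + 1 → S u w
  ray : ∀ x : ℕ → V, (∀ k, T.Adj (x k) (x (k + 1))) → (∀ k, x k ≠ x (k + 2)) →
    ∃ k, 1 ≤ k ∧ S (x 0) (x k)

/-- The group rings `k[D]` over all fields `k` have locally perfect kernels. -/
def FieldKernels (D : Type) [Group D] : Prop :=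
  ∀ (k : Type) [Field k], LocallyPerfectKernels (MonoidAlgebra k D)

/-- `g` translates the segment `[u, v]` along itself in the direction of `v`: the points `v` and
`g u` lie on the geodesic from `u` to `g v`, and `g v ≠ v`. -/
def Translates {G V : Type} [Group G] [MulAction G V] (T : SimpleGraph V) (g : G) (u v : V) :
    Prop :=
  g • v ≠ v ∧ T.dist u (g • v) = T.dist u v + T.dist v (g • v) ∧
    T.dist u (g • v) = T.dist u (g • u) + T.dist (g • u) (g • v)

/-- The homomorphism `f : H → G` lifts the pair `(D, g)` to the pair `(D', t)`: it maps `D'`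
isomorphically onto `D` and `t` to `g`, and `t` conjugates `x ∈ D'` into `D'` whenever `g`
conjugates `f x` into `D`. For instance `H` may be the subgroup generated by `D` and `g`, or the HNN
extension of `D` with stable letter `t` over `D ∩ g D g⁻¹`. -/
structure Lifts {G H : Type} [Group G] [Group H] (f : H →* G) (D : Subgroup G) (g : G)
    (D' : Subgroup H) (t : H) : Prop where
  map : ∀ x ∈ D', f x ∈ D
  surj : ∀ y ∈ D, ∃ x ∈ D', f x = y
  inj : ∀ x ∈ D', f x = 1 → x = 1
  ft : f t = g
  conj : ∀ x ∈ D', g⁻¹ * f x * g ∈ D → t⁻¹ * x * t ∈ D'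

/-- `(v i, w i)` is a vertex (if `v i = w i`) or an edge of `T i` for every `i`. -/
def Cells {I : Type} {V : I → Type} (T : ∀ i, SimpleGraph (V i)) (v w : ∀ i, V i) : Prop :=
  ∀ i, v i = w i ∨ (T i).Adj (v i) (w i)

/-- `(v i, w i)` is a vertex or an edge of `T i` for every `i ≠ k`, and a segment in `S k` of
positive length for `i = k`. -/
def CellsBut {I : Type} {V : I → Type} (T : ∀ i, SimpleGraph (V i)) (S : ∀ i, V i → V i → Prop)
    (k : I) (v w : ∀ i, V i) : Prop :=
  S k (v k) (w k) ∧ v k ≠ w k ∧ ∀ i, i ≠ k → v i = w i ∨ (T i).Adj (v i) (w i)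

/-- The smallest class of groups which contains the poly-`ℤ` groups and all groups `G` such that
the finitely generated projective modules over all `ℤ[G × ℤ^n]` are stably free, and which is closed
under

* local approximation (directed colimits),
* actions on a tree such that the stabilisers of vertices and edges are in the class and for the
  stabilisers `D` of long segments `[u, v]`: `D` is in `L`, or the kernels over the rings `k[D]` are
  locally perfect, or for all `g` which translate `[u, v]` there is a lift of `(D, g)` to a group in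
  the class,
* actions on finitely many trees `T i` with sets `S i` of segments such that `S i` is a set of long
  segments or contains all edges: the stabilisers of the tuples of vertices and edges are in the
  class, and the stabilisers of the tuples of vertices and edges with one segment in some `S k` are
  in the class and in `L`. -/
inductive W : ∀ (G : Type) [Group G], Prop
  | poly (G : Type) [Group G] : PolyZ G → W G
  | base (G : Type) [Group G] : (∀ n, AllStablyFree (G × Zn n)) → W G
  | approx (G : Type) [Group G] (H : Finset G → Type) [∀ s, Group (H s)] (f : ∀ s, H s →* G)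
      (σ : ∀ s, G → H s) : (∀ s, ∀ g ∈ s, f s (σ s g) = g) →
      (∀ s, ∀ a ∈ s, ∀ b ∈ s, a * b ∈ s → σ s a * σ s b = σ s (a * b)) → (∀ s, W (H s)) → W G
  | tree (G : Type) [Group G] (V : Type) [MulAction G V] (T : SimpleGraph V) (S : V → V → Prop)
      (H : V → V → G → Type) [∀ u v g, Group (H u v g)] (f : ∀ u v g, H u v g →* G)
      (D' : ∀ u v g, Subgroup (H u v g)) (t : ∀ u v g, H u v g) :
      ActsOnTree G V T → (∀ v : V, W (MulAction.stabilizer G v)) →
      (∀ u v : V, T.Adj u v → W (MulAction.stabilizer G (u, v))) → LongSegments T S →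
      (∀ u v : V, S u v → u ≠ v → ¬ L (MulAction.stabilizer G (u, v)) →
        ¬ FieldKernels (MulAction.stabilizer G (u, v)) → ∀ g : G, Translates T g u v →
          Lifts (f u v g) (MulAction.stabilizer G (u, v)) g (D' u v g) (t u v g)) →
      (∀ u v : V, S u v → u ≠ v → ¬ L (MulAction.stabilizer G (u, v)) →
        ¬ FieldKernels (MulAction.stabilizer G (u, v)) → ∀ g : G, Translates T g u v →
          W (H u v g)) → W G
  | trees (G : Type) [Group G] (I : Type) [Finite I] (V : I → Type) [∀ i, MulAction G (V i)]
      (T : ∀ i, SimpleGraph (V i)) (S : ∀ i, V i → V i → Prop) :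
      (∀ i, ActsOnTree G (V i) (T i)) →
      (∀ i, LongSegments (T i) (S i) ∨ ∀ u v, (T i).Adj u v → S i u v) →
      (∀ v w : ∀ i, V i, Cells T v w → W (MulAction.stabilizer G (v, w))) →
      (∀ k (v w : ∀ i, V i), CellsBut T S k v w → W (MulAction.stabilizer G (v, w))) →
      (∀ k (v w : ∀ i, V i), CellsBut T S k v w → L (MulAction.stabilizer G (v, w))) → W G

open Pool.Agent.Lib.MP_551055_al in
theorem hasResolution_iff (R : Type) [Ring R] (d : ℕ) : ∀ (M : Type) [AddCommGroup M] [Module R M],
    HasResolution R d M ↔ LS.FFR R d M := by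
  induction d with
  | zero => intro M _ _; exact Iff.rfl
  | succ d ih =>
    intro M _ _
    constructor
    · rintro ⟨n, f, hf, h⟩
      exact ⟨n, f, hf, (ih _).1 h⟩
    · rintro ⟨n, f, hf, h⟩
      exact ⟨n, f, hf, (ih _).2 h⟩

open Pool.Agent.Lib.MP_551055_al in
theorem PolyZ.toLib {G : Type} [Group G] (h : PolyZ G) : LS.PolyZ G := by
  induction h with
  | trivial G hG => exact LS.PolyZ.triv G hG
  | extension G f hf _ ih => exact LS.PolyZ.ext G f hf ih

open Pool.Agent.Lib.MP_551055_al in
theorem PolyZ.ofLib {G : Type} [Group G] (h : LS.PolyZ G) : PolyZ G := by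
  induction h with
  | triv G hG => exact PolyZ.trivial G hG
  | ext G f hf _ ih => exact PolyZ.extension G f hf ih

open Pool.Agent.Lib.MP_551055_al in
theorem small_iff {G : Type} [Group G] : Small G ↔ LS.Small G := by
  constructor
  · rintro (h | h)
    · exact Or.inl h.toLib
    · refine Or.inr fun m M _ _ hM => ?_
      obtain ⟨d, hd⟩ := h m M hM
      exact ⟨d, (hasResolution_iff _ d M).1 hd⟩
  · rintro (h | h)
    · exact Or.inl (PolyZ.ofLib h)
    · refine Or.inr fun m M _ _ hM => ?_
      obtain ⟨d, hd⟩ := h m M hM
      exact ⟨d, (hasResolution_iff _ d M).2 hd⟩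

open Pool.Agent.Lib.MP_551055_al in
theorem LocallyPerfectKernels.lps {R : Type} [Ring R] (h : LocallyPerfectKernels R) :
    T6.LPS R := by
  intro n a f s hs
  obtain ⟨m, V, h1, h2, d, hd⟩ := h n a f s hs
  exact ⟨m, V, h1, h2, d, (hasResolution_iff _ d V).1 hd⟩

open Pool.Agent.Lib.MP_551055_al in
theorem L.lps {D : Type} [Group D] (h : L D) : T6.StLPS D := by
  induction h with
  | small D hD => exact T6.StLPS.of_small LS.lsPFin (small_iff.1 hD)
  | dimension D hD => exact T6.StLPS.of_two hD
  | perfect D hD => exact fun m => (hD m).lps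
  | union D H hH _ ih => exact T6.StLPS.of_local fun s => ⟨H s, fun g hg => hH s g hg, ih s⟩
  | tree D V T hT _ he ih =>
    exact T6.StLPS.of_tree V T ⟨hT.tree, hT.adj, hT.inv⟩ ih fun u v huv => small_iff.1 (he u v huv)

open Pool.Agent.Lib.MP_551055_al in
theorem W.good {G : Type} [Group G] (h : W G) : ∀ n, AllStablyFree (G × Zn n) := by
  induction h with
  | poly G hG => exact LS.lsPPoly G hG.toLib
  | base G h => exact h
  | approx G H f σ h1 h2 _ ih =>
    intro n
    exact LS.closure_local n G fun s => ⟨H s, inferInstance, f s, σ s, h1 s, h2 s, ih s n⟩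
  | tree G V T S H f D' t hT _ _ hS hl _ ihv ihe ihl =>
    intro n
    refine RI.stFinalH n G V T ⟨hT.tree, hT.adj, hT.inv⟩ (fun v => ihv v n)
      (fun u v huv => ihe u v huv (n + 1)) S ⟨hS.prolong, hS.ray⟩ fun u v huv hne => ?_
    by_cases h1 : L (MulAction.stabilizer G (u, v))
    · exact Or.inl (T6.nGood_of_lps _ h1.lps)
    · by_cases h2 : FieldKernels (MulAction.stabilizer G (u, v))
      · exact Or.inl (T4.nGood_of_fieldLPK _ fun k _ => (h2 k).lps)
      · refine Or.inr (Or.inr fun g hg => ⟨H u v g, inferInstance, f u v g, D' u v g, t u v g, ?_,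
          ihl u v huv hne h1 h2 g hg n⟩)
        obtain ⟨l1, l2, l3, l4, l5⟩ := hl u v huv hne h1 h2 g hg
        exact ⟨l1, l2, l3, l4, l5⟩
  | trees G I V T S hT hS _ _ hL ihc ihs =>
    refine W17.tL G I V T (fun i => ⟨(hT i).tree, (hT i).adj, (hT i).inv⟩) S (fun i => ?_)
      ihc fun k v w h1 h2 h3 => ⟨ihs k v w ⟨h1, h2, h3⟩, (hL k v w ⟨h1, h2, h3⟩).lps⟩
    rcases hS i with h | h
    · exact Or.inl ⟨h.prolong, h.ray⟩
    · exact Or.inr h

/-- If `G` is in the class `W`, then the finitely generated projective modules over `ℤ[G]` and over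
all `ℤ[G × ℤ^n]` are stably free. -/
theorem result (G : Type) [Group G] (hG : W G) :
    AllStablyFree G ∧ ∀ n, AllStablyFree (G × Zn n) :=
  ⟨Pool.Agent.Lib.MP_551055_al.LS.projStFree_congr
    (MulEquiv.prodUnique (M := G) (N := Zn 0)) (hG.good 0), hG.good⟩

/-! ## Special cases of the rules -/

/-- Actions on a tree such that the stabilisers of long segments are in `L`. -/
theorem W.of_long (G : Type) [Group G] (V : Type) [MulAction G V] (T : SimpleGraph V)
    (S : V → V → Prop) (hT : ActsOnTree G V T) (hv : ∀ v : V, W (MulAction.stabilizer G v))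
    (he : ∀ u v : V, T.Adj u v → W (MulAction.stabilizer G (u, v))) (hS : LongSegments T S)
    (h : ∀ u v : V, S u v → u ≠ v → L (MulAction.stabilizer G (u, v))) : W G :=
  W.tree G V T S (fun _ _ _ => Unit) (fun _ _ _ => 1) (fun _ _ _ => ⊥) (fun _ _ _ => ()) hT hv he
    hS (fun u v huv hne hn => absurd (h u v huv hne) hn)
    fun u v huv hne hn => absurd (h u v huv hne) hn

/-- Actions on a tree such that for the stabilisers `D` of long segments `[u, v]` which are not in
`L` the groups generated by `D` and `g` are in the class for all `g` translating `[u, v]`. -/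
theorem W.of_translations (G : Type) [Group G] (V : Type) [MulAction G V] (T : SimpleGraph V)
    (S : V → V → Prop) (hT : ActsOnTree G V T) (hv : ∀ v : V, W (MulAction.stabilizer G v))
    (he : ∀ u v : V, T.Adj u v → W (MulAction.stabilizer G (u, v))) (hS : LongSegments T S)
    (h : ∀ u v : V, S u v → u ≠ v → ¬ L (MulAction.stabilizer G (u, v)) → ∀ g : G,
      Translates T g u v → W (↥(MulAction.stabilizer G (u, v) ⊔ Subgroup.zpowers g))) : W G := by
  refine W.tree G V T S (fun u v g => ↥(MulAction.stabilizer G (u, v) ⊔ Subgroup.zpowers g))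
    (fun u v g => (MulAction.stabilizer G (u, v) ⊔ Subgroup.zpowers g).subtype)
    (fun u v g => (MulAction.stabilizer G (u, v)).comap
      (MulAction.stabilizer G (u, v) ⊔ Subgroup.zpowers g).subtype)
    (fun u v g => ⟨g, Subgroup.mem_sup_right (Subgroup.mem_zpowers g)⟩) hT hv he hS
    (fun u v huv hne hn _ g hg => ⟨fun x hx => hx, fun y hy => ⟨⟨y, Subgroup.mem_sup_left hy⟩, hy,
      rfl⟩, fun x _ h1 => Subtype.ext h1, rfl, fun x _ h1 => h1⟩)
    fun u v huv hne hn _ g hg => h u v huv hne hn g hg

/-- Actions on finitely many trees such that the stabilisers of the tuples of cells are in the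
class, and are in `L` if at least one of the cells is an edge. -/
theorem W.of_cells (G : Type) [Group G] (I : Type) [Finite I] (V : I → Type)
    [∀ i, MulAction G (V i)] (T : ∀ i, SimpleGraph (V i)) (hT : ∀ i, ActsOnTree G (V i) (T i))
    (hc : ∀ v w : ∀ i, V i, Cells T v w → W (MulAction.stabilizer G (v, w)))
    (he : ∀ v w : ∀ i, V i, Cells T v w → v ≠ w → L (MulAction.stabilizer G (v, w))) : W G := by
  have key : ∀ k (v w : ∀ i, V i), CellsBut T (fun i => (T i).Adj) k v w → Cells T v w := by
    intro k v w h i
    by_cases hi : i = k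
    · subst hi
      exact Or.inr h.1
    · exact h.2.2 i hi
  exact W.trees G I V T (fun i => (T i).Adj) hT (fun i => Or.inr fun _ _ h => h) hc
    (fun k v w h => hc v w (key k v w h))
    fun k v w h => he v w (key k v w h) fun h0 => h.2.1 (congrFun h0 k)

/-! ## Examples -/

open Pool.Agent.Lib.MP_551055_al in
/-- The action of a group on a tree through a homomorphism. -/
theorem ActsOnTree.comp {G H : Type} [Group G] [Group H] {V : Type} [MulAction G V] [MulAction H V]
    {T : SimpleGraph V} (h : ActsOnTree G V T) (f : H →* G)
    (hf : ∀ (γ : H) (v : V), γ • v = f γ • v) : ActsOnTree H V T := by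
  obtain ⟨h1, h2, h3⟩ := PT.tcomp ⟨h.tree, h.adj, h.inv⟩ f hf
  exact ⟨h1, h2, h3⟩

open Pool.Agent.Lib.MP_551055_al in
/-- Groups which embed into small groups are small. -/
theorem Small.of_injective {G : Type} [Group G] (h : Small G) (H : Type) [Group H] (f : H →* G)
    (hf : Function.Injective f) : Small H :=
  small_iff.2 (LO.small_of_injective (small_iff.1 h) H f hf)

/-- The class generated by the small groups by unions and actions on trees with small edge
stabilisers. -/
inductive L₀ : ∀ (D : Type) [Group D], Prop
  | small (D : Type) [Group D] : Small D → L₀ D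
  | union (D : Type) [Group D] (H : Finset D → Subgroup D) : (∀ s, ∀ g ∈ s, g ∈ H s) →
      (∀ s, L₀ (H s)) → L₀ D
  | tree (D : Type) [Group D] (V : Type) [MulAction D V] (T : SimpleGraph V) : ActsOnTree D V T →
      (∀ v : V, L₀ (MulAction.stabilizer D v)) →
      (∀ u v : V, T.Adj u v → Small (MulAction.stabilizer D (u, v))) → L₀ D

theorem L₀.toL {D : Type} [Group D] (h : L₀ D) : L D := by
  induction h with
  | small D hD => exact L.small D hD
  | union D H hH _ ih => exact L.union D H hH ih
  | tree D V T hT _ he ih => exact L.tree D V T hT ih he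

/-- The class `L₀` is closed under subgroups. -/
theorem L₀.of_injective {G : Type} [Group G] (h : L₀ G) : ∀ (H : Type) [Group H] (f : H →* G),
    Function.Injective f → L₀ H := by
  classical
  induction h with
  | small G hG => exact fun H _ f hf => L₀.small H (hG.of_injective H f hf)
  | union G K hK _ ih =>
    intro H _ f hf
    refine L₀.union H (fun s => (K (s.image f)).comap f)
      (fun s g hg => hK _ _ (Finset.mem_image_of_mem f hg)) fun s => ?_
    refine ih (s.image f) _ ((f.comp ((K (s.image f)).comap f).subtype).codRestrict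
      (K (s.image f)) fun γ => γ.2) ?_
    intro x y hxy
    exact Subtype.ext (hf (congrArg (fun z : K (s.image f) => (z : G)) hxy))
  | tree G V T hT _ he ih =>
    intro H _ f hf
    let _ : MulAction H V := MulAction.compHom V f
    refine L₀.tree H V T (hT.comp f fun _ _ => rfl) (fun v => ?_) (fun u v huv => ?_)
    · refine ih v (MulAction.stabilizer H v) ((f.comp (MulAction.stabilizer H v).subtype).codRestrict
        (MulAction.stabilizer G v) fun γ => γ.2) ?_
      intro x y hxy
      exact Subtype.ext (hf (congrArg (fun z : MulAction.stabilizer G v => (z : G)) hxy))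
    · refine (he u v huv).of_injective (MulAction.stabilizer H (u, v))
        ((f.comp (MulAction.stabilizer H (u, v)).subtype).codRestrict
        (MulAction.stabilizer G (u, v)) fun γ => γ.2) ?_
      intro x y hxy
      exact Subtype.ext (hf (congrArg (fun z : MulAction.stabilizer G (u, v) => (z : G)) hxy))

open Pool.Agent.Lib.MP_551055_al in
/-- Groups acting on a tree with poly-`ℤ` stabilisers are small. -/
theorem Small.of_tree (D : Type) [Group D] (V : Type) [MulAction D V] (T : SimpleGraph V)
    (hT : ActsOnTree D V T) (h : ∀ v : V, PolyZ (MulAction.stabilizer D v)) : Small D := by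
  refine small_iff.2 (LO.small_of_tame (PT.Tame.tree D V T ⟨hT.tree, hT.adj, hT.inv⟩
    (fun v => PT.Tame.poly _ (h v).toLib) fun u v _ => ?_))
  refine PT.PSub.of_injective _ (h u).toLib _
    ((MulAction.stabilizer D (u, v)).subtype.codRestrict (MulAction.stabilizer D u)
      fun γ => congrArg Prod.fst (γ.2 : (γ : D) • (u, v) = (u, v))) ?_
  intro x y hxy
  exact Subtype.ext (congrArg (fun z : MulAction.stabilizer D u => (z : D)) hxy)

open Pool.Agent.Lib.MP_551055_al in
/-- Groups acting on two trees such that the stabilisers of pairs of vertices are poly-`ℤ`: for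
instance products of two free groups. -/
theorem L₀.of_two_trees (D : Type) [Group D] (V V' : Type) [MulAction D V] [MulAction D V']
    (T : SimpleGraph V) (T' : SimpleGraph V') (hT : ActsOnTree D V T) (hT' : ActsOnTree D V' T')
    (h : ∀ (v : V) (v' : V'), PolyZ (MulAction.stabilizer D (v, v'))) : L₀ D := by
  have h1 : ∀ v : V, Small (MulAction.stabilizer D v) := by
    intro v
    refine Small.of_tree (MulAction.stabilizer D v) V' T'
      (hT'.comp (MulAction.stabilizer D v).subtype fun _ _ => rfl) fun v' => ?_
    refine PolyZ.ofLib (PT.PSub.of_injective _ (h v v').toLib _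
      (((MulAction.stabilizer D v).subtype.comp
        (MulAction.stabilizer (MulAction.stabilizer D v) v').subtype).codRestrict
        (MulAction.stabilizer D (v, v')) fun γ => ?_) ?_)
    · have h2 : (γ.1 : D) • v = v := γ.1.2
      have h3 : (γ.1 : D) • v' = v' := γ.2
      exact Prod.ext h2 h3
    · intro x y hxy
      exact Subtype.ext (Subtype.ext (congrArg (fun z : MulAction.stabilizer D (v, v') =>
        (z : D)) hxy))
  refine L₀.tree D V T hT (fun v => L₀.small _ (h1 v)) fun u v _ => ?_
  refine (h1 u).of_injective _ ((MulAction.stabilizer D (u, v)).subtype.codRestrict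
    (MulAction.stabilizer D u) fun γ => congrArg Prod.fst (γ.2 : (γ : D) • (u, v) = (u, v))) ?_
  intro x y hxy
  exact Subtype.ext (congrArg (fun z : MulAction.stabilizer D u => (z : D)) hxy)

/-- Products of trees: `G` acts on two trees `T` and `T'` such that the stabilisers of the pairs
(long segment of `T`, vertex of `T'`) are small. -/
theorem W.of_products (G : Type) [Group G] (V : Type) [MulAction G V] (T : SimpleGraph V)
    (V' : Type) [MulAction G V'] (T' : SimpleGraph V') (S : V → V → Prop) (hT : ActsOnTree G V T)
    (hT' : ActsOnTree G V' T') (hv : ∀ v : V, W (MulAction.stabilizer G v))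
    (he : ∀ u v : V, T.Adj u v → W (MulAction.stabilizer G (u, v))) (hS : LongSegments T S)
    (h : ∀ (u v : V) (w : V'), S u v → u ≠ v → Small (MulAction.stabilizer G ((u, v), w))) :
    W G := by
  refine W.of_long G V T S hT hv he hS fun u v huv hne => ?_
  have h1 : ∀ w : V', Small (MulAction.stabilizer (MulAction.stabilizer G (u, v)) w) := by
    intro w
    refine (h u v w huv hne).of_injective _
      (((MulAction.stabilizer G (u, v)).subtype.comp
        (MulAction.stabilizer (MulAction.stabilizer G (u, v)) w).subtype).codRestrict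
        (MulAction.stabilizer G ((u, v), w)) fun γ => ?_) ?_
    · have h2 : (γ.1 : G) • (u, v) = (u, v) := γ.1.2
      have h3 : (γ.1 : G) • w = w := γ.2
      exact Prod.ext h2 h3
    · intro x y hxy
      exact Subtype.ext (Subtype.ext (congrArg (fun z : MulAction.stabilizer G ((u, v), w) =>
        (z : G)) hxy))
  refine L.tree _ V' T' (hT'.comp (MulAction.stabilizer G (u, v)).subtype fun _ _ => rfl)
    (fun w => L.small _ (h1 w)) fun w w' _ => ?_
  refine (h1 w).of_injective _
    ((MulAction.stabilizer (MulAction.stabilizer G (u, v)) (w, w')).subtype.codRestrict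
    (MulAction.stabilizer (MulAction.stabilizer G (u, v)) w) fun γ =>
      congrArg Prod.fst (γ.2 : (γ : MulAction.stabilizer G (u, v)) • (w, w') = (w, w'))) ?_
  intro x y hxy
  exact Subtype.ext (congrArg (fun z : MulAction.stabilizer
    (MulAction.stabilizer G (u, v)) w => (z : MulAction.stabilizer G (u, v))) hxy)

open Pool.Agent.Lib.MP_551055_al in
/-- Subgroups. -/
theorem DimensionTwo.of_injective {G : Type} [Group G] (h : DimensionTwo G) (H : Type) [Group H]
    (f : H →* G) (hf : Function.Injective f) : DimensionTwo H :=
  T4.TWO.of_injective h f hf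

open Pool.Agent.Lib.MP_551055_al in
/-- Unions. -/
theorem DimensionTwo.of_union (D : Type) [Group D] (H : Finset D → Subgroup D)
    (hH : ∀ s, ∀ g ∈ s, g ∈ H s) (h : ∀ s, DimensionTwo (H s)) : DimensionTwo D :=
  T4.TWO.of_finset fun s => ⟨H s, hH s, h s⟩

/-- `M` has a resolution of length `d` by projective modules, not necessarily finitely
generated. -/
def HasProjectiveResolution (R : Type) [Ring R] :
    ℕ → ∀ (M : Type) [AddCommGroup M] [Module R M], Prop
  | 0, M, _, _ => Module.Projective R M
  | d + 1, M, _, _ => ∃ (P : Type) (_ : AddCommGroup P) (_ : Module R P) (f : P →ₗ[R] M),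
      Module.Projective R P ∧ Function.Surjective f ∧
        HasProjectiveResolution R d (LinearMap.ker f)

open Pool.Agent.Lib.MP_551055_al in
theorem HasProjectiveResolution.pd {R : Type} [Ring R] (d : ℕ) :
    ∀ (M : Type) [AddCommGroup M] [Module R M], HasProjectiveResolution R d M →
      CategoryTheory.HasProjectiveDimensionLT (ModuleCat.of R M) (d + 1) := by
  induction d with
  | zero => exact fun M _ _ h => T4.pd_projective h 0
  | succ d ih =>
    rintro M _ _ ⟨P, _, _, f, hP, hf, h⟩
    exact (LinearMap.shortExact_shortComplexKer hf).hasProjectiveDimensionLT_X₃ (d + 1)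
      (ih _ h) (T4.pd_projective hP (d + 1))

open Pool.Agent.Lib.MP_551055_al in
/-- Groups of cohomological dimension at most two over every field. -/
theorem DimensionTwo.of_cohomologicalDimension (D : Type) [Group D]
    (h : ∀ (k : Type) [Field k], HasProjectiveResolution (MonoidAlgebra k D) 2
      (Representation.trivial k D k).asModule) : DimensionTwo D :=
  T4.TWO.of_gl fun k _ => T4.GlD.of_cd (HasProjectiveResolution.pd 2 _ (h k))

open Pool.Agent.Lib.MP_551055_al in
/-- Groups acting on a tree with edge stabilisers of dimension at most two. -/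
theorem W.of_edges (G : Type) [Group G] (V : Type) [MulAction G V] (T : SimpleGraph V)
    (hT : ActsOnTree G V T) (hv : ∀ v : V, W (MulAction.stabilizer G v))
    (he : ∀ u v : V, T.Adj u v → W (MulAction.stabilizer G (u, v)) ∧
      DimensionTwo (MulAction.stabilizer G (u, v))) : W G := by
  refine W.of_long G V T (fun u v => u ≠ v) hT hv (fun u v huv => (he u v huv).1) ⟨?_, ?_⟩ ?_
  · rintro u v w - hvw hd rfl
    rw [SimpleGraph.dist_self] at hd
    omega
  · exact fun x hx _ => ⟨1, le_rfl, (hx 0).ne⟩
  · intro u v huv _
    obtain ⟨w, hw, hle⟩ := T4.exists_edge_stab (D := G) ⟨hT.tree, hT.adj, hT.inv⟩ huv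
    exact L.dimension _ ((he w v hw).2.of_injective _ (Subgroup.inclusion hle)
      (Subgroup.inclusion_injective hle))

/-- Groups which are built from the trivial group by actions on trees: a group of dimension
`n + 1` acts without inversions on a tree such that the vertex stabilisers have dimension `n + 1`
and the edge stabilisers have dimension `n`. -/
inductive TreeDimension : ℕ → ∀ (G : Type) [Group G], Prop
  | trivial (n : ℕ) (G : Type) [Group G] : Subsingleton G → TreeDimension n G
  | tree (n : ℕ) (G : Type) [Group G] (V : Type) [MulAction G V] (T : SimpleGraph V) :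
      ActsOnTree G V T → (∀ v : V, TreeDimension (n + 1) (MulAction.stabilizer G v)) →
      (∀ u v : V, T.Adj u v → TreeDimension n (MulAction.stabilizer G (u, v))) →
      TreeDimension (n + 1) G

open Pool.Agent.Lib.MP_551055_al in
theorem TreeDimension.glD {n : ℕ} {G : Type} [Group G] (h : TreeDimension n G) :
    ∀ (k : Type) [Field k], T4.GlD k G n := by
  induction h with
  | trivial n G hG => exact fun k _ => (T4.GlD.trivial hG).mono (Nat.zero_le n)
  | tree n G V T hT _ _ ihv ihe =>
    exact fun k _ => T4.GlD.tree ⟨hT.tree, hT.adj, hT.inv⟩ n (fun v => ihv v k)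
      fun u v huv => ihe u v huv k

theorem TreeDimension.succ {n : ℕ} {G : Type} [Group G] (h : TreeDimension n G) :
    TreeDimension (n + 1) G := by
  induction h with
  | trivial n G hG => exact TreeDimension.trivial _ G hG
  | tree n G V T hT _ _ ihv ihe => exact TreeDimension.tree (n + 1) G V T hT ihv ihe

open Pool.Agent.Lib.MP_551055_al in
theorem TreeDimension.dimensionTwo {G : Type} [Group G] (h : TreeDimension 2 G) :
    DimensionTwo G := T4.TWO.of_gl fun k _ => h.glD k

/-- Groups of tree dimension at most three. -/
theorem W.of_treeDimension {n : ℕ} (hn : n ≤ 3) {G : Type} [Group G] (h : TreeDimension n G) :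
    W G := by
  induction h with
  | trivial n G hG => exact W.poly G (PolyZ.trivial G hG)
  | tree n G V T hT hv he ihv ihe =>
    refine W.of_edges G V T hT (fun v => ihv v hn) fun u v huv =>
      ⟨ihe u v huv (by omega), ?_⟩
    have h1 := he u v huv
    have h2 : n = 0 ∨ n = 1 ∨ n = 2 := by omega
    rcases h2 with rfl | rfl | rfl
    · exact h1.succ.succ.dimensionTwo
    · exact h1.succ.dimensionTwo
    · exact h1.dimensionTwo

/-- Subgroups. -/
theorem TreeDimension.of_injective {n : ℕ} {G : Type} [Group G] (h : TreeDimension n G) :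
    ∀ (H : Type) [Group H] (f : H →* G), Function.Injective f → TreeDimension n H := by
  induction h with
  | trivial n G hG =>
    exact fun H _ f hf => TreeDimension.trivial n H ⟨fun x y => hf (Subsingleton.elim _ _)⟩
  | tree n G V T hT _ _ ihv ihe =>
    intro H _ f hf
    let _ : MulAction H V := MulAction.compHom V f
    refine TreeDimension.tree n H V T (hT.comp f fun _ _ => rfl) (fun v => ?_) fun u v huv => ?_
    · refine ihv v (MulAction.stabilizer H v) ((f.comp (MulAction.stabilizer H v).subtype).codRestrict
        (MulAction.stabilizer G v) fun γ => γ.2) ?_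
      intro x y hxy
      exact Subtype.ext (hf (congrArg (fun z : MulAction.stabilizer G v => (z : G)) hxy))
    · refine ihe u v huv (MulAction.stabilizer H (u, v))
        ((f.comp (MulAction.stabilizer H (u, v)).subtype).codRestrict
        (MulAction.stabilizer G (u, v)) fun γ => γ.2) ?_
      intro x y hxy
      exact Subtype.ext (hf (congrArg (fun z : MulAction.stabilizer G (u, v) => (z : G)) hxy))

/-- The trivial group has height `n` for all `n`, and a group which acts without inversions on a
tree with vertex stabilisers of height `n` has height `n + 1`. -/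
inductive Height : ℕ → ∀ (G : Type) [Group G], Prop
  | trivial (n : ℕ) (G : Type) [Group G] : Subsingleton G → Height n G
  | tree (n : ℕ) (G : Type) [Group G] (V : Type) [MulAction G V] (T : SimpleGraph V) :
      ActsOnTree G V T → (∀ v : V, Height n (MulAction.stabilizer G v)) → Height (n + 1) G

theorem Height.treeDimension {n : ℕ} {G : Type} [Group G] (h : Height n G) :
    TreeDimension n G := by
  induction h with
  | trivial n G hG => exact TreeDimension.trivial n G hG
  | tree n G V T hT _ ih =>
    refine TreeDimension.tree n G V T hT (fun v => (ih v).succ) fun u v _ => ?_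
    refine (ih u).of_injective _ ((MulAction.stabilizer G (u, v)).subtype.codRestrict
      (MulAction.stabilizer G u) fun γ => congrArg Prod.fst (γ.2 : (γ : G) • (u, v) = (u, v))) ?_
    intro x y hxy
    exact Subtype.ext (congrArg (fun z : MulAction.stabilizer G u => (z : G)) hxy)

/-- Groups which act on trees such that the vertex stabilisers act on trees with stabilisers which
act freely on trees. -/
theorem W.of_height {G : Type} [Group G] (h : Height 3 G) : W G :=
  W.of_treeDimension le_rfl h.treeDimension

/-- Groups which act on finitely many trees such that the stabilisers of the tuples of vertices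
have tree dimension at most two. -/
theorem W.of_many_trees (G : Type) [Group G] (I : Type) [Finite I] (V : I → Type)
    [∀ i, MulAction G (V i)] (T : ∀ i, SimpleGraph (V i)) (hT : ∀ i, ActsOnTree G (V i) (T i))
    (h : ∀ v : ∀ i, V i, TreeDimension 2 (MulAction.stabilizer G v)) : W G := by
  have key : ∀ v w : ∀ i, V i, TreeDimension 2 (MulAction.stabilizer G (v, w)) := by
    intro v w
    refine (h v).of_injective _ ((MulAction.stabilizer G (v, w)).subtype.codRestrict
      (MulAction.stabilizer G v) fun γ => congrArg Prod.fst (γ.2 : (γ : G) • (v, w) = (v, w))) ?_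
    intro x y hxy
    exact Subtype.ext (congrArg (fun z : MulAction.stabilizer G v => (z : G)) hxy)
  exact W.of_cells G I V T hT (fun v w _ => W.of_treeDimension (by norm_num) (key v w))
    fun v w _ _ => L.dimension _ (key v w).dimensionTwo

/-- Homomorphisms `f : G → Q` where `Q` acts on finitely many trees such that the preimages of the
stabilisers of the tuples of cells are in the class, and in `L` if at least one of the cells is an
edge. -/
theorem W.of_hom (G Q : Type) [Group G] [Group Q] (f : G →* Q) (I : Type) [Finite I]
    (V : I → Type) [∀ i, MulAction Q (V i)] (T : ∀ i, SimpleGraph (V i))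
    (hT : ∀ i, ActsOnTree Q (V i) (T i))
    (hc : ∀ v w : ∀ i, V i, Cells T v w → W ((MulAction.stabilizer Q (v, w)).comap f))
    (he : ∀ v w : ∀ i, V i, Cells T v w → v ≠ w →
      L ((MulAction.stabilizer Q (v, w)).comap f)) : W G := by
  let _ : ∀ i, MulAction G (V i) := fun i => MulAction.compHom (V i) f
  have key : ∀ v w : ∀ i, V i, MulAction.stabilizer G (v, w) =
      (MulAction.stabilizer Q (v, w)).comap f := fun v w => by
    ext g
    rfl
  exact W.of_cells G I V T (fun i => (hT i).comp f fun _ _ => rfl)
    (fun v w hvw => by rw [key]; exact hc v w hvw) fun v w hvw hne => by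
      rw [key]
      exact he v w hvw hne

/-- The graph on `ℤ` where `a` and `a + 1` are adjacent. -/
def lineGraph : SimpleGraph ℤ where
  Adj a b := b = a + 1 ∨ a = b + 1
  symm := ⟨fun _ _ h => h.symm⟩
  loopless := ⟨fun a h => by rcases h with h | h <;> omega⟩

open Pool.Agent.Lib.MP_551055_al in
theorem lineGraph_isTree : lineGraph.IsTree := by
  have hrep : ∀ (a b : Bool) (n : ℕ) (l : List Bool), List.replicate n a = b :: l →
      ∃ m, n = m + 1 ∧ b = a ∧ l = List.replicate m a := by
    intro a b n l h
    cases n with
    | zero => exact absurd h (by simp)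
    | succ m =>
      rw [List.replicate_succ] at h
      obtain ⟨h1, h2⟩ := List.cons.inj h
      exact ⟨m, rfl, h1.symm, h2.symm⟩
  have hval : ∀ (a b : Bool) (n m : ℕ), List.replicate n a = List.replicate m b →
      n = m ∧ (n = 0 ∨ a = b) := by
    intro a b n m h
    have h1 := congrArg List.length h
    rw [List.length_replicate, List.length_replicate] at h1
    subst h1
    refine ⟨rfl, ?_⟩
    cases n with
    | zero => exact Or.inl rfl
    | succ n =>
      rw [List.replicate_succ, List.replicate_succ] at h
      exact Or.inr (List.cons.inj h).1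
  refine RI.isTree_of_lists lineGraph (fun n : ℤ => List.replicate n.natAbs (decide (0 < n))) ?_ 0
    rfl ?_ ?_
  · intro a b h
    obtain ⟨h1, h2⟩ := hval _ _ _ _ h
    rcases h2 with h2 | h2
    · omega
    · have h3 : (0 < a ↔ 0 < b) := decide_eq_decide.1 h2
      omega
  · intro y a l h
    obtain ⟨m, h1, h2, h3⟩ := hrep _ _ _ _ h
    by_cases hy : 0 < y
    · refine ⟨y - 1, ?_⟩
      have h4 : (y - 1).natAbs = m := by omega
      rw [h3]
      change List.replicate (y - 1).natAbs (decide (0 < y - 1)) = _
      rw [h4]
      cases m with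
      | zero => rfl
      | succ m =>
        have h5 : decide (0 < y - 1) = decide (0 < y) := by
          rw [decide_eq_decide]
          omega
        rw [h5]
    · refine ⟨y + 1, ?_⟩
      have h4 : (y + 1).natAbs = m := by omega
      rw [h3]
      change List.replicate (y + 1).natAbs (decide (0 < y + 1)) = _
      rw [h4]
      cases m with
      | zero => rfl
      | succ m =>
        have h5 : decide (0 < y + 1) = decide (0 < y) := by
          rw [decide_eq_decide]
          omega
        rw [h5]
  · have key : ∀ x y : ℤ, (∃ a, List.replicate x.natAbs (decide (0 < x)) =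
        a :: List.replicate y.natAbs (decide (0 < y))) ↔
        x.natAbs = y.natAbs + 1 ∧ (y = 0 ∨ (0 < x ↔ 0 < y)) := by
      intro x y
      constructor
      · rintro ⟨a, h⟩
        obtain ⟨m, h1, h2, h3⟩ := hrep _ _ _ _ h
        obtain ⟨h4, h5⟩ := hval _ _ _ _ h3
        refine ⟨by omega, ?_⟩
        rcases h5 with h5 | h5
        · left
          omega
        · right
          exact (decide_eq_decide.1 h5).symm
      · rintro ⟨h1, h2⟩
        refine ⟨decide (0 < x), ?_⟩
        rw [h1, List.replicate_succ]
        rcases h2 with h2 | h2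
        · rw [h2]
          rfl
        · have h5 : decide (0 < x) = decide (0 < y) := decide_eq_decide.2 h2
          rw [h5]
    intro x y
    rw [key, key]
    change (y = x + 1 ∨ x = y + 1) ↔ _
    omega

/-- The `i`-th axis of `ℤ^n`. -/
def Axis {n : ℕ} (_ : Fin n) : Type := ℤ

/-- The group `ℤ^n` acts on its axes by translations. -/
instance Axis.action {n : ℕ} (i : Fin n) : MulAction (Zn n) (Axis i) where
  smul g a := (Multiplicative.toAdd g i + (show ℤ from a) : ℤ)
  one_smul a := zero_add (show ℤ from a)
  mul_smul _ _ a := add_assoc _ _ (show ℤ from a)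

theorem Axis.acts {n : ℕ} (i : Fin n) : ActsOnTree (Zn n) (Axis i) lineGraph where
  tree := lineGraph_isTree
  adj g u v h := by
    change (Multiplicative.toAdd g i + (show ℤ from v) : ℤ) =
      (Multiplicative.toAdd g i + (show ℤ from u)) + 1 ∨
      (Multiplicative.toAdd g i + (show ℤ from u) : ℤ) =
      (Multiplicative.toAdd g i + (show ℤ from v)) + 1
    have h' : (show ℤ from v) = (show ℤ from u) + 1 ∨ (show ℤ from u) = (show ℤ from v) + 1 := h
    omega
  inv g u v h h1 h2 := by
    have h' : (show ℤ from v) = (show ℤ from u) + 1 ∨ (show ℤ from u) = (show ℤ from v) + 1 := h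
    have h1' : (Multiplicative.toAdd g i + (show ℤ from u) : ℤ) = (show ℤ from v) := h1
    have h2' : (Multiplicative.toAdd g i + (show ℤ from v) : ℤ) = (show ℤ from u) := h2
    omega

/-- Extensions of groups in `W ∩ L` by free abelian groups of finite rank. -/
theorem W.of_free_abelian_quotient (G : Type) [Group G] (n : ℕ) (f : G →* Zn n) (h1 : W f.ker)
    (h2 : L f.ker) : W G := by
  have key : ∀ v w : ∀ i : Fin n, Axis i,
      (MulAction.stabilizer (Zn n) (v, w)).comap f = f.ker := by
    intro v w
    ext g
    rw [Subgroup.mem_comap, MulAction.mem_stabilizer_iff, MonoidHom.mem_ker]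
    constructor
    · intro h
      have h3 : f g • v = v := congrArg Prod.fst h
      refine Multiplicative.toAdd.injective (funext fun i => ?_)
      have h4 : (Multiplicative.toAdd (f g) i + (show ℤ from v i) : ℤ) = (show ℤ from v i) :=
        congrFun h3 i
      have h5 : Multiplicative.toAdd (f g) i = 0 := by omega
      exact h5
    · intro h
      rw [h, one_smul]
  exact W.of_hom G (Zn n) f (Fin n) (fun i => Axis i) (fun _ => lineGraph) Axis.acts
    (fun v w _ => by rw [key]; exact h1) fun v w _ _ => by
      rw [key]
      exact h2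

end Pool.Agent.Results.MP_551055_al.SeveralTrees
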